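import Pool.Agent.Lib.RAD.Blue
import Pool.Agent.Lib.RA.B_LEV

/-! Project ra1, step D: transport of joint plurisubharmonicity. -/

open scoped Topology ContDiff Matrix
open Set Metric Filter

noncomputable section

namespace Pool.Agent.Lib.RAD

open Pool.Agent.Lib.SV (E)
open Pool.Agent.Lib.HS32 Pool.Agent.Lib.RA Pool.Agent.Lib.RA.BLEV

namespace BT2

variable {n k j : ℕ} {M : Mf n} {φ : M.Fam ℝ} {ρ : (Fin k → ℝ) → M.X → ℝ} {ξ : Fin k → ℝ}
  {x : M.X} {e : M.Ch}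

theorem cd_r2 : ContDiff ℝ ∞ (r2 : E k → Fin k → ℝ) :=
  contDiff_pi.2 fun i => contDiff_const.mul (Complex.reCLM.contDiff.comp (contDiff_apply ℝ ℂ i))

theorem r2_zero : r2 (0 : E k) = 0 := funext fun i => by simp [r2]

theorem cd_rho (h : JA M ρ ξ x) (he : e ∈ M.C) (hx : x ∈ e.source) :
    ContDiffAt ℝ ∞ (fun z => ρ ξ (e.symm z)) (e x) :=
  ContDiffAt.comp (g := fun w : (Fin k → ℝ) × E n => ρ w.1 (e.symm w.2)) (e x)
    (h e he hx).contDiffAt (contDiffAt_const.prodMk contDiffAt_id)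

theorem cd_joint (hφ : AnalyticAt ℝ (φ e) (e x)) (h : JA M ρ ξ x) (he : e ∈ M.C)
    (hx : x ∈ e.source) :
    ContDiffAt ℝ ∞ (fun w : E k × E n => φ e w.2 + ρ (ξ + r2 w.1) (e.symm w.2)) (0, e x) := by
  refine (ContDiffAt.comp (g := φ e) (0, e x) hφ.contDiffAt contDiffAt_snd).add ?_
  refine ContDiffAt.comp (g := fun w : (Fin k → ℝ) × E n => ρ w.1 (e.symm w.2))
    (f := fun w : E k × E n => (ξ + r2 w.1, w.2)) (0, e x) ?_
    ((contDiffAt_const.add (cd_r2.contDiffAt.comp _ contDiffAt_fst)).prodMk contDiffAt_snd)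
  simpa only [r2_zero, add_zero] using (h e he hx).contDiffAt

/-- The Levi form of the weight is that of the pulled back potential. -/
theorem lev_adm {Φ : E (k + j) × E (k + j) → ℂ} {δ : ℝ} {H : M.X → E (k + j)}
    (hφ : AnalyticAt ℝ (φ e) (e x)) (hΦ : AnalyticAt ℝ (ph0 Φ) (H x)) (h : JA M ρ ξ x)
    (hH : Adm M φ ρ Φ δ ξ H x) (he : e ∈ M.C) (hx : x ∈ e.source) :
    ContDiffAt ℝ ∞ (ph0 Φ ∘ H ∘ e.symm) (e x) ∧
      ∀ u, lev (fun z => φ e z + ρ ξ (e.symm z)) (e x) u = lev (ph0 Φ ∘ H ∘ e.symm) (e x) u := by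
  have h1 : ContDiffAt ℝ ∞ (ph0 Φ ∘ H ∘ e.symm) (e x) :=
    ContDiffAt.comp (e x) (by simpa only [Function.comp, e.left_inv hx] using hΦ.contDiffAt)
      ((hol_cd (hH.iso.1 e he hx)).restrict_scalars ℝ)
  refine ⟨h1, fun u => ?_⟩
  have h2 : hr (ph0 Φ ∘ H ∘ e.symm) (e x) =
      hr (φ e) (e x) + hr (fun z => ρ ξ (e.symm z)) (e x) := hH.iso.2.self_of_nhds e he hx
  rw [lev_add hφ.contDiffAt (cd_rho h he hx), st_LEV.1 _ _ _ _ hφ.contDiffAt,
    st_LEV.1 _ _ _ _ (cd_rho h he hx), st_LEV.1 _ _ _ _ h1, h2]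
  simp only [nq, Matrix.add_mulVec, dotProduct_add, Complex.add_re]

end BT2

open BT2 in
theorem st_BT2 (hTV : St_TV) : St_BT2 := by
  intro n k j M φ ρ Φ δ c ξ H H' x y θ hφ hT j1 j2 j3 a1 a2 hxy hθ hol hH hρ hJ e he hx v
  obtain ⟨e', he', hy⟩ := M.cov y
  have p1 := hφ e he _ (e.map_source hx)
  have p2 := hφ e' he' _ (e'.map_source hy)
  have an := fun t ht => ((hTV k j Φ δ c hT).2.2.2.2.1 t ht).1
  obtain ⟨c1, l1⟩ := lev_adm p1 (an _ a1.val) j1 a1 he hx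
  obtain ⟨c2, l2⟩ := lev_adm p2 (an _ a2.val) j3 a2 he' hy
  set κ : E n → E n := (e' ∘ θ) ∘ e.symm with hκ
  have k1 : HolN κ (e x) := hol e' he' hy e he hx
  have k2 : κ (e x) = e' y := by simp only [hκ, Function.comp, e.left_inv hx, hxy]
  have t1 : Tendsto e.symm (𝓝 (e x)) (𝓝 x) := e.tendsto_symm hx
  have k3 : ∀ᶠ z in 𝓝 (e x), e'.symm (κ z) = θ (e.symm z) :=
    (t1.eventually (hθ.eventually (e'.open_source.mem_nhds (hxy ▸ hy)))).mono fun z hz =>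
      e'.left_inv hz
  have kc : ContDiffAt ℝ ∞ κ (e x) := (hol_cd k1).restrict_scalars ℝ
  set A : E n → ℝ := fun z => φ e z + ρ 0 (e.symm z) with hA
  set B : E n → ℝ := fun z => φ e' z + ρ (-ξ) (e'.symm z) with hB
  have cA : ContDiffAt ℝ ∞ A (e x) := p1.contDiffAt.add (cd_rho j1 he hx)
  have cB : ContDiffAt ℝ ∞ B (κ (e x)) := k2 ▸ p2.contDiffAt.add (cd_rho j3 he' hy)
  have cB' : ContDiffAt ℝ ∞ (fun z => -(B ∘ κ) z) (e x) := (cB.comp _ kc).neg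
  have z0 : ∀ u, lev (fun z => A z + -(B ∘ κ) z) (e x) u = 0 := fun u => by
    rw [lev_add cA cB', lev_neg, l1, lev_comp cB k1, k2, l2, ← k2, ← lev_comp (k2 ▸ c2) k1,
      add_neg_eq_zero]
    refine lev_congr ?_ u
    filter_upwards [k3, t1.eventually hH] with z h1 h2
    simp only [Function.comp, h1, h2]
  set g : E k × E n → ℝ := fun w => φ e' w.2 + ρ (0 + r2 w.1) (e'.symm w.2) with hg
  set ψ : E k × E n → E k × E n := fun w => (w.1, κ w.2) with hψ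
  have s1 : Tendsto (Prod.snd : E k × E n → E n) (𝓝 (0, e x)) (𝓝 (e x)) := continuousAt_snd
  have ψ1 : ∀ᶠ w in 𝓝 ((0 : E k), e x), DifferentiableAt ℂ ψ w :=
    (s1.eventually k1).mono fun w hw => differentiableAt_fst.prodMk (hw.comp w differentiableAt_snd)
  have ψ2 : ψ (0, e x) = (0, e' y) := by simp only [hψ, k2]
  have cg : ContDiffAt ℝ ∞ g (ψ (0, e x)) := ψ2 ▸ cd_joint p2 j2 he' hy
  have ch : ContDiffAt ℝ ∞ (fun z => A z + -(B ∘ κ) z) (Prod.snd ((0 : E k), e x)) := cA.add cB'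
  have t2 : Tendsto (fun w : E k × E n => (r2 w.1, e.symm w.2)) (𝓝 (0, e x)) (𝓝 (0, x)) :=
    Tendsto.prodMk_nhds (r2_zero (k := k) ▸ cd_r2.continuous.continuousAt.tendsto.comp
      (continuousAt_fst (p := ((0 : E k), e x)))) (t1.comp s1)
  have eq : (fun w : E k × E n => φ e w.2 + ρ (ξ + r2 w.1) (e.symm w.2)) =ᶠ[𝓝 (0, e x)]
      fun w => (g ∘ ψ) w + ((fun z => A z + -(B ∘ κ) z) ∘ Prod.snd) w := by
    filter_upwards [t2.eventually hρ, s1.eventually k3] with w h1 h2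
    simp only [Function.comp, hg, hψ, hA, hB, h2, zero_add] at h1 ⊢
    linarith
  rw [lev_congr eq, lev_add (cg.comp _ ((hol_cd ψ1).restrict_scalars ℝ))
    (ch.comp _ contDiffAt_snd), lev_comp cg ψ1,
    lev_comp ch (.of_forall fun _ => differentiableAt_snd), z0, add_zero, ψ2]
  exact hJ e' he' hy _

end Pool.Agent.Lib.RAD
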