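import Pool.Agent.Lib.RAD.Blue
import Pool.Agent.Lib.RA.T_POL
import Pool.Agent.Lib.RA.T_AN
import Pool.Agent.Lib.RA.T_PK

/-! Project ra1, step D, row D1: the first stage of the flow. -/

open scoped Classical Topology ContDiff ComplexOrder Matrix
open Set MeasureTheory Complex Metric Filter

set_option linter.unusedVariables false

noncomputable section

namespace Pool.Agent.Lib.RAD

open Pool.Agent.Lib.SV (E)
open Pool.Agent.Lib.HS32 Pool.Agent.Lib.RA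

namespace D1

theorem norm_cx {k : ℕ} (ξ : Fin k → ℝ) : ‖cx ξ‖ = ‖ξ‖ := by
  simp only [Pi.norm_def, cx, Complex.nnnorm_real]

theorem cx_zero {k : ℕ} : cx (0 : Fin k → ℝ) = 0 := by
  funext i; simp [cx]

theorem cx_mem {k : ℕ} {ξ : Fin k → ℝ} {t : ℝ} (h : ξ ∈ ball (0 : Fin k → ℝ) t) :
    cx ξ ∈ ball (0 : E k) t := by
  rwa [mem_ball_zero_iff, norm_cx, ← mem_ball_zero_iff]

theorem small {r : ℕ} (s : Fin r → ℝ) (h : ∀ a, 0 < s a) : ∃ t, 0 < t ∧ ∀ a, t ≤ s a := by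
  have : ∀ᶠ t in 𝓝[>] (0 : ℝ), ∀ a, t ≤ s a := eventually_all.2 fun a =>
    mem_nhdsWithin_of_mem_nhds (Iic_mem_nhds (h a))
  obtain ⟨t, h1, h2⟩ := (this.and self_mem_nhdsWithin).exists
  exact ⟨t, h2, h1⟩

/-- Two holomorphic functions of the parameter with the same real germ. -/
theorem slice {k : ℕ} {g g' : E k → ℂ} {t : ℝ} {f : (Fin k → ℝ) → ℝ}
    (hg : DifferentiableOn ℂ g (ball 0 t)) (hg' : DifferentiableOn ℂ g' (ball 0 t))
    (e : ∀ᶠ ξ in 𝓝 0, g (cx ξ) = f ξ) (e' : ∀ᶠ ξ in 𝓝 0, g' (cx ξ) = f ξ) {ξ : Fin k → ℝ}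
    (hξ : ξ ∈ ball (0 : Fin k → ℝ) t) : g (cx ξ) = g' (cx ξ) ∧ (g (cx ξ)).im = 0 := by
  have h0 : (0 : Fin k → ℝ) ∈ ball (0 : Fin k → ℝ) t := mem_ball_self (pos_of_mem_ball hξ)
  constructor
  · exact sub_eq_zero.1 ((RF.re k).eqOn_zero (v := 0) isOpen_ball (convex_ball _ _).isPreconnected
      (hg.sub hg') (cx_mem h0) ((e.and e').mono fun x hx => sub_eq_zero.2 (hx.1.trans hx.2.symm))
      (cx_mem hξ))
  · have an : AnalyticOnNhd ℝ (fun x => (g (cx x)).im) (ball 0 t) := fun x hx =>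
      (imCLM.analyticAt _).comp (AnalyticAt.comp (g := g)
        ((ANB.analyticOnNhd isOpen_ball hg _ (cx_mem hx)).restrictScalars (𝕜 := ℝ))
        ((RF.re k).ι.analyticAt x))
    exact an.eqOn_zero_of_preconnected_of_eventuallyEq_zero (convex_ball _ _).isPreconnected h0
      (e.mono fun x hx => by simp [hx]) hξ

end D1

open D1 in
theorem st_D1 (hC : St_PCOV) (hL : St_LOC) : St_D1 := by
  intro n k j M _ G φ μ hS hH hK hD hB
  obtain ⟨V, hV, -⟩ := hC n M φ (fun _ => univ) hS.an fun _ => univ_mem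
  choose Φ₀ hΦ₀ using id hV
  choose s₀ hs₀ F hF hF1 hF0 hFb using fun a => hL n k j M G φ μ (V.e a) (V.c a) (4 * V.ρ a)
    (3 * V.ρ a) (Φ₀ a) hS hH hK hD hB (V.mem a) (by linarith [V.pos a]) (by linarith [V.pos a])
    (ball_subset_closedBall.trans (V.sub a)) (hΦ₀ a)
  obtain ⟨t, ht, hts⟩ := small s₀ hs₀
  obtain ⟨d, hd, hdρ⟩ := small V.ρ V.pos
  choose α hα1 hα2 hα3 using V.cov
  let P : Fin V.r → M.X → Prop := fun a x =>
    x ∈ (V.e a).source ∧ V.e a x ∈ ball (V.c a) (3 * V.ρ a)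
  let u : Fin V.r → E k → M.X → ℂ := fun a ζ x => F a (ζ, dg (V.e a x))
  have Pα : ∀ x, P (α x) x := fun x =>
    ⟨hα1 x, ball_subset_ball (by linarith [V.pos (α x)]) (hα2 x)⟩
  have Pev : ∀ a x, P a x → ∀ᶠ y in 𝓝 x, P a y := fun a x h =>
    ((V.e a).open_source.eventually_mem h.1).and
      (((V.e a).continuousAt h.1).eventually (isOpen_ball.eventually_mem h.2))
  have mem : ∀ a x, P a x → ∀ ζ ∈ ball (0 : E k) t,
      (ζ, dg (V.e a x)) ∈ ball (0 : E k) (s₀ a) ×ˢ ball (dg (V.c a)) (3 * V.ρ a) :=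
    fun a x h ζ hζ => ⟨ball_subset_ball (hts a) hζ, PK.dg_mem_ball.2 h.2⟩
  have dif : ∀ a x, P a x → ∀ ζ ∈ ball (0 : E k) t,
      DifferentiableAt ℂ (F a) (ζ, dg (V.e a x)) := fun a x h ζ hζ =>
    (hF a).differentiableAt ((isOpen_ball.prod isOpen_ball).mem_nhds (mem a x h ζ hζ))
  have hol : ∀ a x, P a x → DifferentiableOn ℂ (fun ζ => u a ζ x) (ball 0 t) := fun a x h ζ hζ =>
    ((dif a x h ζ hζ).comp ζ (differentiableAt_id.prodMk
      (differentiableAt_const _))).differentiableWithinAt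
  have con : ∀ a x, P a x → ∀ ζ ∈ ball (0 : E k) t, ContinuousAt (u a ζ) x := fun a x h ζ hζ =>
    ContinuousAt.comp (g := F a) (f := fun y => (ζ, dg (V.e a y))) (dif a x h ζ hζ).continuousAt
      (continuousAt_const.prodMk (PK.cont_dg.continuousAt.comp ((V.e a).continuousAt h.1)))
  have box : ∀ x₀ (Φ : E (k + j) × E (k + j) → ℂ) δ c O H σ, Box M φ μ x₀ Φ δ c O H σ →
      ∀ x ∈ O, ∀ a, P a x → ∀ᶠ w : (Fin k → ℝ) × M.X in 𝓝 (0, x),
        u a (cx w.1) w.2 = (ph0 Φ (sh (H w.2) w.1) - ph0 Φ (H w.2) : ℝ) := by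
    intro x₀ Φ δ c O H σ hb x hx a h
    have h1 := hFb a x₀ Φ δ c O H σ hb _ h.2 (by rwa [(V.e a).left_inv h.1])
    have h2 : Tendsto (fun w : (Fin k → ℝ) × M.X => (w.1, V.e a w.2)) (𝓝 (0, x))
        (𝓝 (0, V.e a x)) := ContinuousAt.prodMap continuousAt_id ((V.e a).continuousAt h.1)
    filter_upwards [h2.eventually h1, (continuous_snd.tendsto (0, x)).eventually (Pev a x h)]
      with w h3 h4
    rwa [(V.e a).left_inv h4.1] at h3
  have key : ∀ a b x, P a x → P b x → ∀ ξ ∈ ball (0 : Fin k → ℝ) t,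
      u a (cx ξ) x = u b (cx ξ) x ∧ (u a (cx ξ) x).im = 0 := by
    intro a b x ha hb ξ hξ
    have fr : ∃ᶠ y in 𝓝 x, u a (cx ξ) y = u b (cx ξ) y ∧ (u a (cx ξ) y).im = 0 := by
      refine ((mem_closure_iff_frequently.1 (hD x)).and_eventually
        ((Pev a x ha).and (Pev b x hb))).mono ?_
      rintro y ⟨hy, ya, yb⟩
      obtain ⟨Φ, δ, c, O, H, σ, h⟩ := hB y hy
      have h2 : Tendsto (fun ξ : Fin k → ℝ => (ξ, y)) (𝓝 0) (𝓝 (0, y)) :=
        (continuous_id.prodMk continuous_const).tendsto 0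
      exact slice (hol a y ya) (hol b y yb) (h2.eventually (box y Φ δ c O H σ h y h.mem a ya))
        (h2.eventually (box y Φ δ c O H σ h y h.mem b yb)) hξ
    exact ⟨tendsto_nhds_unique_of_frequently_eq (con a x ha _ (cx_mem hξ))
        (con b x hb _ (cx_mem hξ)) (fr.mono fun y hy => hy.1),
      tendsto_nhds_unique_of_frequently_eq
        (continuous_im.continuousAt.comp (con a x ha _ (cx_mem hξ))) tendsto_const_nhds
        (fr.mono fun y hy => hy.2)⟩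
  let ρ : (Fin k → ℝ) → M.X → ℝ := fun ξ x => (u (α x) (cx ξ) x).re
  have val : ∀ a x, P a x → ∀ ξ ∈ ball (0 : Fin k → ℝ) t, u a (cx ξ) x = ρ ξ x := by
    intro a x h ξ hξ
    rw [(key a _ x h (Pα x) ξ hξ).1]
    exact Complex.ext rfl (by rw [(key _ _ x (Pα x) (Pα x) ξ hξ).2, ofReal_im])
  have z0 : ∀ x, ρ 0 x = 0 := fun x => by
    show (F _ (cx 0, _)).re = 0
    rw [cx_zero, hF0 _ _ (PK.dg_mem_ball.2 (Pα x).2), zero_re]
  refine ⟨V, ρ, t / 2, d, hV, ⟨z0, fun x₀ Φ δ c O H σ hb x hx => ?_⟩, half_pos ht, half_pos ht, hd,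
    le_rfl, fun ξ hξ a c hc => ?_, fun x => ⟨fun ζ => u (α x) ζ x, 0, ?_, ?_, ?_⟩⟩
  · filter_upwards [box x₀ Φ δ c O H σ hb x hx _ (Pα x),
      (continuous_snd.tendsto (0, x)).eventually (Pev _ x (Pα x)),
      (continuous_fst.tendsto (0, x)).eventually (ball_mem_nhds (0 : Fin k → ℝ) ht)] with w h1 h2 h3
    rw [val _ _ h2 _ h3] at h1
    rw [zero_add, z0, sub_zero]
    exact ofReal_injective h1
  · have s1 : ball c d ⊆ ball (V.c a) (3 * V.ρ a) :=
      ball_subset_ball' (by linarith [mem_closedBall.1 hc, hdρ a])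
    have s2 : ball c d ⊆ (V.e a).target :=
      (s1.trans (ball_subset_closedBall.trans
        (closedBall_subset_closedBall (by linarith [V.pos a])))).trans (V.sub a)
    have s3 : ball (cx ξ) (t / 2) ×ˢ ball (dg c) d ⊆
        ball (0 : E k) (s₀ a) ×ˢ ball (dg (V.c a)) (3 * V.ρ a) := by
      refine prod_mono (ball_subset_ball' ?_) fun w hw => ?_
      · linarith [mem_ball.1 (cx_mem hξ), hts a]
      · rw [PK.mem_ball_dg] at hw ⊢
        exact ⟨s1 hw.1, PK.star_mem_ball'.1 (s1 (PK.star_mem_ball'.2 hw.2))⟩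
    refine ⟨s2, F a, (hF a).mono s3, fun w hw => hF1 a w (s3 hw), fun ξ' hξ' z hz => ?_⟩
    have h1 : P a ((V.e a).symm z) :=
      ⟨(V.e a).map_target (s2 hz), by rw [(V.e a).right_inv (s2 hz)]; exact s1 hz⟩
    rw [← val a _ h1 ξ' (ball_subset_ball' (by linarith [mem_ball.1 hξ]) hξ')]
    simp only [u, (V.e a).right_inv (s2 hz)]
  · rw [cx_zero, mul_div_cancel₀ _ two_ne_zero]
    exact hol _ x (Pα x)
  · rw [cx_zero, mul_div_cancel₀ _ two_ne_zero]
    exact fun ζ hζ => hF1 _ _ (mem _ x (Pα x) ζ hζ)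
  · filter_upwards [ball_mem_nhds (0 : Fin k → ℝ) ht] with ζ hζ
    rw [add_zero, val _ x (Pα x) ζ hζ]

end Pool.Agent.Lib.RAD
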