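import Pool.Agent.Lib.RAD.Blue
import Pool.Agent.Lib.RAD.Kit

/-! Project ra1, step D: gluing of the extensions in the parameter. -/

open scoped Topology
open Set Metric Filter

noncomputable section

namespace Pool.Agent.Lib.RAD

open Pool.Agent.Lib.SV (E)
open Pool.Agent.Lib.RA

theorem st_GLU : St_GLU := by
  intro k f R s t hs hst h
  have ht : 0 < t := hs.trans_le hst
  have an : ∀ (ξ : Fin k → ℝ) (g : E k → ℂ), DifferentiableOn ℂ g (ball (cx ξ) t) →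
      AnalyticOnNhd ℝ (fun ζ => g (cx ζ)) (ball ξ t) := fun ξ g hg ζ hζ =>
    DK.an_comp isOpen_ball hg (DK.cx_mem.2 hζ)
  have ev : ∀ (ξ : Fin k → ℝ) (g : E k → ℂ), (∀ ζ ∈ ball ξ s, g (cx ζ) = f ζ) →
      (fun ζ => g (cx ζ)) =ᶠ[𝓝 ξ] fun ζ => (f ζ : ℂ) := fun ξ g hg => by
    filter_upwards [ball_mem_nhds ξ hs] with ζ hζ using hg ζ hζ
  have h1 : AnalyticOnNhd ℝ (fun ζ => (f ζ : ℂ)) (ball 0 R) := fun ξ hξ => by
    obtain ⟨g, hg, hg'⟩ := h ξ hξ
    exact (an ξ g hg ξ (mem_ball_self ht)).congr (ev ξ g hg')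
  have h2 : ∀ ξ ∈ ball (0 : Fin k → ℝ) R, ∀ g : E k → ℂ, DifferentiableOn ℂ g (ball (cx ξ) t) →
      (∀ ζ ∈ ball ξ s, g (cx ζ) = f ζ) →
      EqOn (fun ζ => g (cx ζ)) (fun ζ => (f ζ : ℂ)) (ball 0 R ∩ ball ξ t) := fun ξ hξ g hg hg' =>
    ((an ξ g hg).mono inter_subset_right).eqOn_of_preconnected_of_eventuallyEq
      (h1.mono inter_subset_left) ((convex_ball _ _).inter (convex_ball _ _)).isPreconnected
      ⟨hξ, mem_ball_self ht⟩ (ev ξ g hg')
  have h3 : ∀ ζ : Fin k → ℝ, ∃ y : ℝ, ∀ ξ ∈ ball (0 : Fin k → ℝ) R, ∀ g : E k → ℂ,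
      DifferentiableOn ℂ g (ball (cx ξ) t) → (∀ ζ ∈ ball ξ s, g (cx ζ) = f ζ) → ζ ∈ ball ξ t →
      g (cx ζ) = y := fun ζ => by
    by_cases hζ : ∃ ξ ∈ ball (0 : Fin k → ℝ) R, ζ ∈ ball ξ t
    · obtain ⟨ξ', hξ', hζ'⟩ := hζ
      obtain ⟨g', hd, he⟩ := h ξ' hξ'
      refine ⟨(g' (cx ζ)).re, fun ξ hξ g hg hg' hζ => ?_⟩
      have him : (g' (cx ζ)).im = 0 := by
        have a : AnalyticOnNhd ℝ (fun ζ => (g' (cx ζ)).im) (ball ξ' t) := fun w hw =>
          (Complex.imCLM.analyticAt _).comp (an ξ' g' hd w hw)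
        refine a.eqOn_zero_of_preconnected_of_eventuallyEq_zero (convex_ball _ _).isPreconnected
          (mem_ball_self ht) ?_ hζ'
        filter_upwards [ev ξ' g' he] with w hw
        rw [hw]
        exact Complex.ofReal_im _
      have hd2 : dist ξ ξ' < 2 * t := by
        have := dist_triangle_left ξ ξ' ζ
        linarith [mem_ball.1 hζ, mem_ball.1 hζ']
      have m0 : midpoint ℝ ξ ξ' ∈ ball (0 : Fin k → ℝ) R := (convex_ball _ _).midpoint_mem hξ hξ'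
      have m1 : midpoint ℝ ξ ξ' ∈ ball ξ t := by
        rw [mem_ball, dist_midpoint_left, Real.norm_ofNat]
        linarith
      have m2 : midpoint ℝ ξ ξ' ∈ ball ξ' t := by
        rw [mem_ball, dist_midpoint_right, Real.norm_ofNat]
        linarith
      have e : g (cx ζ) = g' (cx ζ) := by
        refine ((an ξ g hg).mono inter_subset_left).eqOn_of_preconnected_of_eventuallyEq
          ((an ξ' g' hd).mono inter_subset_right)
          ((convex_ball _ _).inter (convex_ball _ _)).isPreconnected ⟨m1, m2⟩ ?_ ⟨hζ, hζ'⟩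
        filter_upwards [isOpen_ball.mem_nhds m0, isOpen_ball.mem_nhds m1,
          isOpen_ball.mem_nhds m2] with w w0 w1 w2
        exact (h2 ξ hξ g hg hg' ⟨w0, w1⟩).trans (h2 ξ' hξ' g' hd he ⟨w0, w2⟩).symm
      rw [e]
      exact Complex.ext rfl him
    · exact ⟨0, fun ξ hξ g _ _ hζ' => (hζ ⟨ξ, hξ, hζ'⟩).elim⟩
  choose f' hf' using h3
  exact ⟨f', fun ξ hξ g hg hg' ζ hζ => hf' ζ ξ hξ g hg hg' hζ⟩

end Pool.Agent.Lib.RAD
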