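import Pool.Agent.Lib.RAD.Blue
import Pool.Agent.Lib.RA.B_LEV
import Pool.Agent.Lib.RA.K_At

/-! Project ra1, step D: joint plurisubharmonicity is closed and gives convexity. -/

open scoped Classical Topology ContDiff ComplexOrder Matrix
open Set MeasureTheory Complex Metric Filter

set_option linter.unusedVariables false

noncomputable section

namespace Pool.Agent.Lib.RAD

open Pool.Agent.Lib.SV (E)
open Pool.Agent.Lib.HS32 Pool.Agent.Lib.RA

namespace BJPC

theorem sec_aff {V W : Type} [NormedAddCommGroup V] [NormedSpace ℝ V] [NormedAddCommGroup W]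
    [NormedSpace ℝ W] {G : W → ℝ} (p : W) (L : V →L[ℝ] W) {z : V} (h : AnalyticAt ℝ G (p + L z))
    (v : V) : fderiv ℝ (fun w => fderiv ℝ (fun w => G (p + L w)) w v) z v =
      fderiv ℝ (fun w => fderiv ℝ G w (L v)) (p + L z) (L v) := by
  have a : ∀ w, HasFDerivAt (fun w => p + L w) L w := fun w => L.hasFDerivAt.const_add p
  have e : (fun w => fderiv ℝ (fun w => G (p + L w)) w v) =ᶠ[𝓝 z]
      fun w => fderiv ℝ G (p + L w) (L v) := by
    filter_upwards [(a z).continuousAt.eventually h.eventually_analyticAt] with w hw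
    exact DFunLike.congr_fun (hw.differentiableAt.hasFDerivAt.comp w (a w)).fderiv v
  have d : DifferentiableAt ℝ (fun w => fderiv ℝ G w (L v)) (p + L z) :=
    h.fderiv.differentiableAt.clm_apply (differentiableAt_const _)
  rw [e.fderiv_eq]
  exact DFunLike.congr_fun (d.hasFDerivAt.comp z (a z)).fderiv v

/-- The real linear map of the definition. -/
def rl (k n : ℕ) : E k × E n →L[ℝ] (Fin k → ℝ) × E n :=
  (ContinuousLinearMap.pi fun i => (2 : ℝ) • (reCLM.comp
    ((ContinuousLinearMap.proj (R := ℝ) (φ := fun _ : Fin k => ℂ) i).comp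
      (ContinuousLinearMap.fst ℝ _ _)))).prod (ContinuousLinearMap.snd ℝ _ _)

theorem rl_apply {k n : ℕ} (w : E k × E n) : rl k n w = (r2 w.1, w.2) := rfl

variable {n k : ℕ} {M : Mf n} {φ : M.Fam ℝ} {ρ : (Fin k → ℝ) → M.X → ℝ} {e : M.Ch}

theorem an_G {ξ : Fin k → ℝ} {z : E n} (h : AnalyticAt ℝ (φ e) z)
    (h' : AnalyticAt ℝ (fun w : (Fin k → ℝ) × E n => ρ w.1 (e.symm w.2)) (ξ, z)) :
    AnalyticAt ℝ (fun w : (Fin k → ℝ) × E n => φ e w.2 + ρ w.1 (e.symm w.2)) (ξ, z) :=
  (AnalyticAt.comp (g := φ e) (f := Prod.snd) (x := (ξ, z)) h analyticAt_snd).add h'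

theorem f_eq (ξ : Fin k → ℝ) :
    (fun w : E k × E n => φ e w.2 + ρ (ξ + r2 w.1) (e.symm w.2)) = fun w =>
      (fun w : (Fin k → ℝ) × E n => φ e w.2 + ρ w.1 (e.symm w.2)) ((ξ, 0) + rl k n w) := by
  funext w
  simp only [rl_apply, Prod.mk_add_mk, zero_add]

theorem pt_eq (ξ : Fin k → ℝ) (z : E n) : (ξ, (0 : E n)) + rl k n (0, z) = (ξ, z) := by
  rw [rl_apply, Prod.mk_add_mk, zero_add]
  congr 1
  funext i
  simp [r2]

/-- The function of the definition is analytic. -/
theorem an_f {ξ : Fin k → ℝ} {z : E n} (h : AnalyticAt ℝ (φ e) z)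
    (h' : AnalyticAt ℝ (fun w : (Fin k → ℝ) × E n => ρ w.1 (e.symm w.2)) (ξ, z)) :
    AnalyticAt ℝ (fun w : E k × E n => φ e w.2 + ρ (ξ + r2 w.1) (e.symm w.2)) (0, z) := by
  rw [f_eq]
  exact AnalyticAt.comp (g := fun w : (Fin k → ℝ) × E n => φ e w.2 + ρ w.1 (e.symm w.2))
    (f := fun w => (ξ, (0 : E n)) + rl k n w) (x := (0, z))
    (by rw [pt_eq]; exact an_G h h') (analyticAt_const.add ((rl k n).analyticAt _))

theorem lev_eq {ξ : Fin k → ℝ} {z : E n} (h : AnalyticAt ℝ (φ e) z)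
    (h' : AnalyticAt ℝ (fun w : (Fin k → ℝ) × E n => ρ w.1 (e.symm w.2)) (ξ, z))
    (a : Fin k → ℝ) :
    lev (fun w : E k × E n => φ e w.2 + ρ (ξ + r2 w.1) (e.symm w.2)) (0, z)
      (cx ((1 / 2 : ℝ) • a), 0) = fderiv ℝ (fun w => fderiv ℝ
        (fun w : (Fin k → ℝ) × E n => φ e w.2 + ρ w.1 (e.symm w.2)) w (a, 0)) (ξ, z) (a, 0) / 4 := by
  have g := an_G h h'
  rw [← pt_eq] at g
  have e1 : rl k n (cx ((1 / 2 : ℝ) • a), 0) = (a, 0) := by
    rw [rl_apply]
    congr 1
    funext i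
    simp [r2, cx]
  have e2 : rl k n (I • (cx ((1 / 2 : ℝ) • a), 0)) = 0 := by
    rw [rl_apply]
    refine Prod.ext ?_ (by simp)
    funext i
    simp [r2, cx]
  rw [lev, f_eq, sec_aff _ _ g, sec_aff _ _ g, e1, e2, pt_eq, map_zero, add_zero]

end BJPC

open BJPC in
theorem st_JPC : St_JPC := by
  intro n k M φ ρ ha
  refine ⟨fun ξ x hJ hf e he hx v => ?_, fun x h => ⟨convex_univ, fun p _ q _ a b a0 b0 ab => ?_⟩⟩
  · have c := (BLEV.lev_cd (an_f (Mf.AllOn.at ha he hx) (hJ e he hx)).contDiffAt v).continuousAt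
    have t : Tendsto (fun y => ((0 : E k), e y)) (𝓝 x) (𝓝 (0, e x)) :=
      tendsto_const_nhds.prodMk_nhds (e.continuousAt hx)
    refine isClosed_Ici.mem_of_frequently_of_tendsto ?_ (c.tendsto.comp t)
    exact (hf.and_eventually (e.open_source.eventually_mem hx)).mono fun y hy =>
      hy.1 e he hy.2 v
  · have he := Mf.ch_mem x
    have hx := Mf.mem_ch x
    have h0 := Mf.AllOn.at ha he hx
    set e := M.ch x
    let L : ℝ →L[ℝ] (Fin k → ℝ) × E n := ContinuousLinearMap.toSpanSingleton ℝ (q - p, 0)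
    have hL : ∀ τ : ℝ, (p, e x) + L τ = (p + τ • (q - p), e x) := fun τ => by
      simp [L, ContinuousLinearMap.toSpanSingleton_apply]
    let G : (Fin k → ℝ) × E n → ℝ := fun w => φ e w.2 + ρ w.1 (e.symm w.2)
    have g : ∀ τ : ℝ, AnalyticAt ℝ G ((p, e x) + L τ) := fun τ => by
      rw [hL]
      exact an_G h0 ((h _).1 e he hx)
    have u : ∀ τ : ℝ, AnalyticAt ℝ (fun τ => G ((p, e x) + L τ)) τ := fun τ =>
      AnalyticAt.comp (g := G) (f := fun τ => (p, e x) + L τ) (g τ)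
        (analyticAt_const.add (L.analyticAt _))
    have cv : ConvexOn ℝ univ fun τ => G ((p, e x) + L τ) := by
      refine convexOn_univ_of_deriv2_nonneg (fun τ => (u τ).differentiableAt)
        (fun τ => (u τ).deriv.differentiableAt) fun τ => ?_
      have s := sec_aff (p, e x) L (g τ) 1
      have l := lev_eq h0 ((h (p + τ • (q - p))).1 e he hx) (q - p)
      have n0 := (h (p + τ • (q - p))).2 e he hx (cx ((1 / 2 : ℝ) • (q - p)), 0)
      rw [l] at n0
      rw [hL, show L 1 = (q - p, 0) by simp [L, ContinuousLinearMap.toSpanSingleton_apply]] at s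
      change 0 ≤ fderiv ℝ (fun w => fderiv ℝ (fun τ => G ((p, e x) + L τ)) w 1) τ 1
      rw [s]
      linarith
    have r := cv.2 (mem_univ 0) (mem_univ 1) a0 b0 ab
    have e1 : p + (a • (0 : ℝ) + b • (1 : ℝ)) • (q - p) = a • p + b • q := by
      rw [show a = 1 - b by linarith]
      module
    simp only [hL] at r
    rw [e1] at r
    simp only [G, e.left_inv hx, zero_smul, add_zero, one_smul, add_sub_cancel,
      smul_eq_mul] at r ⊢
    have : a * φ e (e x) + b * φ e (e x) = φ e (e x) := by rw [← add_mul, ab, one_mul]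
    nlinarith

end Pool.Agent.Lib.RAD
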