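import Pool.Agent.Lib.RAD.Blue

/-! Project ra1, step D: linear growth in the parameter. -/

open scoped Classical Topology
open Set Complex Metric Filter

set_option linter.unusedVariables false

noncomputable section

namespace Pool.Agent.Lib.RAD

open Pool.Agent.Lib.SV (E)
open Pool.Agent.Lib.HS32 Pool.Agent.Lib.RA

namespace LIN

theorem bound {k : ℕ} {f : (Fin k → ℝ) → ℝ} {ξ : Fin k → ℝ} {s : ℝ} (hs : 0 < s)
    (h : Sta f ξ s) : ‖fderiv ℝ f ξ‖ ≤ s⁻¹ := by
  obtain ⟨g, κ, h1, h2, h3⟩ := h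
  let L : (Fin k → ℝ) →L[ℝ] E k :=
    ContinuousLinearMap.pi fun i => ofRealCLM.comp (ContinuousLinearMap.proj i)
  have hL : ∀ a, ‖L a‖ ≤ ‖a‖ := fun a => (pi_norm_le_iff_of_nonneg (norm_nonneg a)).2 fun i => by
    simpa [L] using norm_le_pi_norm a i
  have h4 : ‖fderiv ℂ g (cx ξ)‖ ≤ 2 / (2 * s) :=
    Complex.norm_fderiv_le_div_of_mapsTo_ball h1 (fun z hz => by
      rw [mem_closedBall, dist_eq_norm]
      have := h2 z hz
      have := h2 _ (mem_ball_self (by positivity))
      linarith [norm_sub_le (g z) (g (cx ξ))]) (by positivity)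
  have h5 : HasFDerivAt g (fderiv ℂ g (cx ξ)) (L ξ) :=
    (h1.differentiableAt (ball_mem_nhds _ (by positivity))).hasFDerivAt
  have h6 := (reCLM.hasFDerivAt.comp ξ
    (((h5.restrictScalars ℝ).comp ξ L.hasFDerivAt).add_const κ)).congr_of_eventuallyEq (f₁ := f)
    (h3.mono fun ζ hζ => (ofReal_re _).symm.trans (congrArg re hζ))
  rw [h6.fderiv]
  refine ContinuousLinearMap.opNorm_le_bound _ (by positivity) fun a => ?_
  refine (abs_re_le_norm _).trans (((fderiv ℂ g (cx ξ)).le_opNorm (L a)).trans ?_)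
  refine mul_le_mul (h4.trans_eq ?_) (hL a) (norm_nonneg _) (by positivity)
  field_simp

end LIN

theorem st_LIN : St_LIN := by
  intro n k M ρ s hs h0 hA hS ξ x
  obtain ⟨e, he, hx⟩ := M.cov x
  have key : ∀ η, DifferentiableAt ℝ (fun a => ρ a x) η ∧
      ‖fderiv ℝ (fun a => ρ a x) η‖ ≤ s⁻¹ := fun η => by
    have h1 := hA η x e he hx
    set A : (Fin k → ℝ) × E n → ℝ := fun w => ρ w.1 (e.symm w.2) with hAe
    have h2 : Tendsto (fun y => (η, e y)) (𝓝 x) (𝓝 (η, e x)) :=
      tendsto_const_nhds.prodMk_nhds (e.continuousAt hx)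
    have h3 : ∀ᶠ y in 𝓝 x, HasFDerivAt (fun a => ρ a y)
        ((fderiv ℝ A (η, e y)).comp (ContinuousLinearMap.inl ℝ _ _)) η := by
      filter_upwards [h2.eventually h1.eventually_analyticAt, e.open_source.mem_nhds hx]
        with y h4 h5
      have h6 := HasFDerivAt.comp η (f := fun a => (a, e y)) h4.differentiableAt.hasFDerivAt
        (hasFDerivAt_prodMk_left (𝕜 := ℝ) η (e y))
      simpa only [Function.comp_def, hAe, e.left_inv h5] using h6
    have h4 : Tendsto (fun y => ‖(fderiv ℝ A (η, e y)).comp (ContinuousLinearMap.inl ℝ _ _)‖)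
        (𝓝 x) (𝓝 ‖(fderiv ℝ A (η, e x)).comp (ContinuousLinearMap.inl ℝ _ _)‖) :=
      ((((ContinuousLinearMap.compL ℝ _ _ ℝ).flip
        (ContinuousLinearMap.inl ℝ (Fin k → ℝ) (E n))).continuous.tendsto _).comp
        (h1.fderiv.continuousAt.tendsto.comp h2)).norm
    refine ⟨h3.self_of_nhds.differentiableAt, ?_⟩
    rw [h3.self_of_nhds.fderiv]
    exact isClosed_Iic.mem_of_frequently_of_tendsto (((hS η x).and_eventually h3).mono
      fun y hy => hy.2.fderiv ▸ LIN.bound hs hy.1) h4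
  simpa [h0] using convex_univ.norm_image_sub_le_of_norm_fderiv_le (fun η _ => (key η).1)
    (fun η _ => (key η).2) (mem_univ 0) (mem_univ ξ)

end Pool.Agent.Lib.RAD
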