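import Pool.Agent.Lib.RAD.Blue

/-! Project ra1, step D: the Lipschitz bound in the point. -/

open scoped Classical Topology ContDiff ComplexOrder Matrix
open Set MeasureTheory Complex Metric Filter

set_option linter.unusedVariables false

noncomputable section

namespace Pool.Agent.Lib.RAD

open Pool.Agent.Lib.SV (E)
open Pool.Agent.Lib.HS32 Pool.Agent.Lib.RA

namespace LIP

/-- A Lipschitz bound at small distances on a convex set is a Lipschitz bound. -/
theorem chain {X : Type} [NormedAddCommGroup X] [NormedSpace ℝ X] {K : Set X} (hK : Convex ℝ K)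
    {f : X → ℝ} {d L : ℝ} (hd : 0 < d)
    (h : ∀ c ∈ K, ∀ z ∈ K, ‖z - c‖ < d → |f z - f c| ≤ L * ‖z - c‖) :
    ∀ c ∈ K, ∀ z ∈ K, |f z - f c| ≤ L * ‖z - c‖ := by
  have key : ∀ m : ℕ, ∀ c ∈ K, ∀ z ∈ K, ‖z - c‖ < 2 ^ m * d → |f z - f c| ≤ L * ‖z - c‖ := by
    intro m
    induction m with
    | zero => simpa using h
    | succ m ih =>
      intro c hc z hz hn
      set w : X := (1 / 2 : ℝ) • c + (1 / 2 : ℝ) • z with hw
      have hwK : w ∈ K := hK hc hz (by norm_num) (by norm_num) (by norm_num)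
      have e1 : w - c = (1 / 2 : ℝ) • (z - c) := by rw [hw]; module
      have e2 : z - w = (1 / 2 : ℝ) • (z - c) := by rw [hw]; module
      have e3 : ‖(1 / 2 : ℝ) • (z - c)‖ = ‖z - c‖ / 2 := by
        rw [norm_smul, Real.norm_of_nonneg (by norm_num)]; ring
      rw [pow_succ] at hn
      have h1 := ih c hc w hwK (by rw [e1, e3]; linarith)
      have h2 := ih w hwK z hz (by rw [e2, e3]; linarith)
      rw [e1, e3] at h1
      rw [e2, e3] at h2
      have h3 := abs_sub_le (f z) (f w) (f c)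
      linarith
  intro c hc z hz
  obtain ⟨m, hm⟩ := pow_unbounded_of_one_lt (‖z - c‖ / d) (by norm_num : (1 : ℝ) < 2)
  exact key m c hc z hz ((div_lt_iff₀ hd).1 hm)

theorem norm_dg {n : ℕ} (z c : E n) : ‖dg z - dg c‖ = ‖z - c‖ := by
  have h : dg z - dg c = (z - c, star (z - c)) := by simp [dg]
  rw [h, Prod.norm_mk, norm_star, max_self]

/-- The bound for one parameter. -/
theorem one {n k : ℕ} {M : Mf n} {V : M.Cov} {ρ : (Fin k → ℝ) → M.X → ℝ} {ξ : Fin k → ℝ}
    {s d B : ℝ} (hs : 0 < s) (hd : 0 < d) (h : Pzd M V ρ ξ s d B) (a : Fin V.r) :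
    ∀ c ∈ closedBall (V.c a) (2 * V.ρ a), ∀ z ∈ closedBall (V.c a) (2 * V.ρ a),
      |ρ ξ ((V.e a).symm z) - ρ ξ ((V.e a).symm c)| ≤ 2 * B / d * ‖z - c‖ := by
  refine chain (f := fun z => ρ ξ ((V.e a).symm z)) (convex_closedBall _ _) hd ?_
  intro c hc z _ hz
  obtain ⟨-, R, hR, hB, he⟩ := h a c hc
  have hm : ∀ w ∈ ball (dg c) d, (cx ξ, w) ∈ ball (cx ξ) s ×ˢ ball (dg c) d :=
    fun w hw => ⟨mem_ball_self hs, hw⟩
  have hR' : DifferentiableOn ℂ (fun w => R (cx ξ, w)) (ball (dg c) d) :=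
    hR.comp (by fun_prop) hm
  have hz' : dg z ∈ ball (dg c) d := by rw [mem_ball, dist_eq_norm, norm_dg]; exact hz
  have h1 := SV.H85.norm_sub_le_of_bound hR' (fun w hw => hB _ (hm w hw)) hz'
  rw [he ξ (mem_ball_self hs) z (by rwa [mem_ball, dist_eq_norm]),
    he ξ (mem_ball_self hs) c (mem_ball_self hd), norm_dg, ← ofReal_sub, norm_real,
    Real.norm_eq_abs] at h1
  exact h1

end LIP

theorem st_LIP : St_LIP := by
  intro n k M V ρ s d hs hd h
  refine ⟨2 / d + 1406 / s, by positivity, fun ξ a z hz z' hz' => ?_⟩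
  have h0 : 0 ≤ 2 * ‖ξ‖ / s := by positivity
  have h1 := Nat.floor_le h0
  have h2 := Nat.lt_floor_add_one (2 * ‖ξ‖ / s)
  set N := ⌊2 * ‖ξ‖ / s⌋₊ with hN
  have hξ : ξ ∈ ball (0 : Fin k → ℝ) (s + N * (s / 2)) := by
    rw [mem_ball_zero_iff]
    rw [div_lt_iff₀ hs] at h2
    nlinarith
  refine (LIP.one hs (by positivity) (h N ξ hξ) a z' hz' z hz).trans ?_
  refine mul_le_mul_of_nonneg_right ?_ (norm_nonneg _)
  have e : 2 * (11 : ℝ) ^ N / (d / 64 ^ N) = 2 / d * 704 ^ N := by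
    rw [show (704 : ℝ) = 11 * 64 by norm_num, mul_pow]; field_simp
  have h3 : (704 : ℝ) ^ N ≤ Real.exp ((2 / d + 1406 / s) * ‖ξ‖) := by
    have h4 : (704 : ℝ) ≤ Real.exp 703 := by linarith [Real.add_one_le_exp (703 : ℝ)]
    refine (pow_le_pow_left₀ (by norm_num) h4 N).trans ?_
    rw [← Real.exp_nat_mul, Real.exp_le_exp]
    have h5 : 0 ≤ 2 / d * ‖ξ‖ := by positivity
    have h6 : 1406 / s * ‖ξ‖ = 703 * (2 * ‖ξ‖ / s) := by ring
    rw [add_mul, h6]
    linarith
  rw [e]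
  have h7 : 0 < 1406 / s := by positivity
  exact mul_le_mul (by linarith) h3 (by positivity) (by positivity)

end Pool.Agent.Lib.RAD
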