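import Pool.Agent.Lib.RAD.Blue
import Pool.Agent.Lib.RA.B_TV

/-! The germ attached to a map into the tube. -/

open scoped Classical Topology ContDiff ComplexOrder Matrix
open Set MeasureTheory Complex Metric Filter

set_option linter.unusedVariables false

noncomputable section

namespace Pool.Agent.Lib.RAD

open Pool.Agent.Lib.SV (E)
open Pool.Agent.Lib.HS32 Pool.Agent.Lib.RA Pool.Agent.Lib.RA.PK Pool.Agent.Lib.RA.TVB

namespace SEED

variable {n k j : ℕ}

/-- Half of a vector, in the first `k` coordinates. -/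
def apL (k j : ℕ) : E k →L[ℂ] E (k + j) :=
  LinearMap.toContinuousLinearMap
    ⟨⟨fun η => Fin.append (fun i => η i / 2) 0, fun a b => ext2 (fun i => by simp [add_div])
      fun l => by simp⟩, fun r a => ext2 (fun i => by simp [mul_div_assoc]) fun l => by simp⟩

theorem apL_l (η : E k) (i : Fin k) : apL k j η (Fin.castAdd j i) = η i / 2 := by simp [apL]

theorem apL_r (η : E k) (l : Fin j) : apL k j η (Fin.natAdd k l) = 0 := by simp [apL]

theorem apL_cx (a : Fin k → ℝ) : apL k j (cx a) = io j ((1 / 2 : ℝ) • a) :=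
  ext2 (fun i => by rw [apL_l, io_l]; simp [cx]; ring) fun l => by rw [apL_r, io_r]

theorem dot_apL (p : E (k + j)) (i : Fin k) :
    p ⬝ᵥ apL k j (Pi.single i 1) = fx p i / 2 := by
  simp only [dotProduct, Fin.sum_univ_add, apL_l, apL_r, mul_zero, Finset.sum_const_zero,
    add_zero, fx]
  rw [Finset.sum_eq_single i (fun b _ hb => by simp [hb]) (by simp)]
  simp [div_eq_mul_inv]

/-- The conjugate map. -/
def cs {m : ℕ} (H : E n → E m) (u : E n) : E m := star (H (star u))

theorem hasF_cs {m : ℕ} {H : E n → E m} {u : E n} (h : DifferentiableAt ℂ H (star u)) :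
    ∃ L : E n →L[ℂ] E m, HasFDerivAt (cs H) L u ∧
      ∀ v, L v = star (fderiv ℂ H (star u) (star v)) := by
  have := h.hasFDerivAt.star_star
  rw [star_star] at this
  exact ⟨_, this, fun v => rfl⟩

/-- The point of the complexified tube. -/
def ag (H : E n → E (k + j)) (p : E k × (E n × E n)) : E (k + j) × E (k + j) :=
  (H p.2.1 + apL k j p.1, cs H p.2.2 + apL k j p.1)

theorem ag_dg (H : E n → E (k + j)) (a : Fin k → ℝ) (w : E n) :
    ag H (cx a, dg w) = dg (sh (H w) a) := by
  simp only [ag, dg, cs, sh, apL_cx, star_star, star_add, star_io]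

theorem ag_zero (H : E n → E (k + j)) (w : E n) : ag H (0, dg w) = dg (H w) := by
  simp only [ag, dg, cs, map_zero, add_zero, star_star]

theorem hasF_ag {H : E n → E (k + j)} {p : E k × (E n × E n)}
    (h1 : DifferentiableAt ℂ H p.2.1) (h2 : DifferentiableAt ℂ H (star p.2.2)) :
    ∃ L : E k × (E n × E n) →L[ℂ] E (k + j) × E (k + j), HasFDerivAt (ag H) L p ∧
      ∀ η v w, L (η, (v, w)) = (fderiv ℂ H p.2.1 v + apL k j η,
        star (fderiv ℂ H (star p.2.2) (star w)) + apL k j η) := by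
  obtain ⟨L, hL, e⟩ := hasF_cs h2
  have a0 : HasFDerivAt (fun q : E k × (E n × E n) => apL k j q.1)
      ((apL k j).comp (ContinuousLinearMap.fst ℂ _ _)) p :=
    ((apL k j).comp (ContinuousLinearMap.fst ℂ (E k) (E n × E n))).hasFDerivAt
  have a1 : HasFDerivAt (fun q : E k × (E n × E n) => H q.2.1) ((fderiv ℂ H p.2.1).comp
      ((ContinuousLinearMap.fst ℂ _ _).comp (ContinuousLinearMap.snd ℂ _ _))) p :=
    h1.hasFDerivAt.comp p ((ContinuousLinearMap.fst ℂ (E n) (E n)).comp
      (ContinuousLinearMap.snd ℂ (E k) (E n × E n))).hasFDerivAt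
  have a2 : HasFDerivAt (fun q : E k × (E n × E n) => cs H q.2.2) (L.comp
      ((ContinuousLinearMap.snd ℂ _ _).comp (ContinuousLinearMap.snd ℂ _ _))) p :=
    HasFDerivAt.comp (g := cs H) (f := fun q : E k × (E n × E n) => q.2.2) p hL
      ((ContinuousLinearMap.snd ℂ (E n) (E n)).comp
        (ContinuousLinearMap.snd ℂ (E k) (E n × E n))).hasFDerivAt
  exact ⟨_, (a1.add a0).prodMk (a2.add a0), fun η v w => by rw [← e]; rfl⟩

/-- The good points. -/
def Gd (δ : ℝ) (H : E n → E (k + j)) (p : E k × (E n × E n)) : Prop :=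
  DifferentiableAt ℂ H p.2.1 ∧ DifferentiableAt ℂ H (star p.2.2) ∧
    ag H p ∈ ball (0 : E (k + j) × E (k + j)) (2 * δ)

theorem td1 (z : E n) :
    Tendsto (fun p : E k × (E n × E n) => p.2.1) (𝓝 (0, dg z)) (𝓝 z) :=
  (continuous_fst.comp continuous_snd).tendsto' _ _ rfl

theorem td2 (z : E n) :
    Tendsto (fun p : E k × (E n × E n) => star p.2.2) (𝓝 (0, dg z)) (𝓝 z) :=
  (continuous_star.comp (continuous_snd.comp continuous_snd)).tendsto' _ _ (star_star z)

theorem gd_ev {δ : ℝ} {H : E n → E (k + j)} {z : E n} (hH : HolN H z) (hz : ‖H z‖ < 2 * δ) :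
    ∀ᶠ p in 𝓝 ((0 : E k), dg z), Gd δ H p := by
  have h1 : ∀ᶠ p in 𝓝 ((0 : E k), dg z), DifferentiableAt ℂ H p.2.1 := (td1 z).eventually hH
  have h2 : ∀ᶠ p in 𝓝 ((0 : E k), dg z), DifferentiableAt ℂ H (star p.2.2) :=
    (td2 z).eventually hH
  obtain ⟨L, hL, -⟩ := hasF_ag h1.self_of_nhds h2.self_of_nhds
  have h3 := hL.continuousAt.eventually (isOpen_ball.mem_nhds
    (show ag H (0, dg z) ∈ ball (0 : E (k + j) × E (k + j)) (2 * δ) by
      rw [ag_zero, dg_mem]; exact mem_ball_zero_iff.2 hz))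
  exact h1.and (h2.and h3)

section tv

variable {Φ : E (k + j) × E (k + j) → ℂ} {δ c : ℝ} (h : Tv k j Φ δ c) {H : E n → E (k + j)}
  {p : E k × (E n × E n)} (g : Gd δ H p)
include h g

theorem diff_psi : DifferentiableAt ℂ (fun q => Φ (ag H q)) p := by
  obtain ⟨L, hL, -⟩ := hasF_ag g.1 g.2.1
  exact (hn_at (hn h g.2.2)).comp p hL.differentiableAt

theorem fd_psi (η : E k) (v w : E n) : fderiv ℂ (fun q => Φ (ag H q)) p (η, (v, w)) =
    pz Φ (ag H p) ⬝ᵥ (fderiv ℂ H p.2.1 v + apL k j η) +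
      pu Φ (ag H p) ⬝ᵥ (star (fderiv ℂ H (star p.2.2) (star w)) + apL k j η) := by
  obtain ⟨L, hL, e⟩ := hasF_ag g.1 g.2.1
  have := ((hn_at (hn h g.2.2)).hasFDerivAt.comp p hL).fderiv
  rw [show (fun q => Φ (ag H q)) = Φ ∘ ag H from rfl, this, ContinuousLinearMap.comp_apply, e,
    fd_zu]

theorem fd_eta (i : Fin k) : fderiv ℂ (fun q => Φ (ag H q)) p (Pi.single i 1, 0) =
    fx (pz Φ (ag H p)) i := by
  rw [show (0 : E n × E n) = (0, 0) from rfl, fd_psi h g, star_zero, map_zero, map_zero, star_zero,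
    zero_add, dot_apL, dot_apL, ← h.inv _ g.2.2, add_halves]

theorem fd_N (i : Fin k) {v : E n} {a : ℂ}
    (e : fderiv ℂ H p.2.1 v = a • Pi.single (Fin.castAdd j i) 1) :
    fderiv ℂ (fun q => Φ (ag H q)) p (0, (v, 0)) = a * fx (pz Φ (ag H p)) i := by
  rw [fd_psi h g, star_zero, map_zero, map_zero, star_zero, add_zero, add_zero, dotProduct_zero,
    add_zero, e, dotProduct_smul, dotProduct_single, mul_one, smul_eq_mul, fx]

theorem fd_Y (i : Fin k) {v : E n} {a : ℂ} (ha : a ≠ 0)
    (e : fderiv ℂ H (star p.2.2) v = a • Pi.single (Fin.castAdd j i) 1) :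
    fderiv ℂ (fun q => Φ (ag H q)) p (0, (0, (star a)⁻¹ • star v)) = fx (pz Φ (ag H p)) i := by
  rw [fd_psi h g, map_zero, map_zero, add_zero, add_zero, dotProduct_zero, zero_add, star_smul,
    star_star, star_inv₀, star_star, map_smul, e, smul_smul, inv_mul_cancel₀ ha, one_smul,
    star_single, star_one, dotProduct_single, mul_one, h.inv _ g.2.2, fx]

end tv

end SEED

open SEED

theorem st_SEED : St_SEED := by
  intro n k j Φ δ c H z d N m h hH hz hm hN
  have G := gd_ev (k := k) hH hz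
  have hol : Hn (fun q => Φ (ag H q)) ((0 : E k), dg z) := G.mono fun p g => diff_psi h g
  have t0 : Tendsto (fun w : E n × E n => ((0 : E k), w)) (𝓝 (dg z)) (𝓝 (0, dg z)) :=
    (continuous_const.prodMk continuous_id).tendsto _
  refine ⟨fun q => Φ (ag H q), ⟨hol, ?_, ?_⟩, ?_, fun hd hn' d0 => ?_⟩
  · refine eventually_all.2 fun i => id2_eq
      (F := fun w => fderiv ℂ (fun q => Φ (ag H q)) (0, w) (Pi.single i 1, 0))
      (hn_comp (k := fun w : E n × E n => ((0 : E k), w)) (hn_fd hol _)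
        (Eventually.of_forall fun w => by fun_prop)) (hm i) ?_
    filter_upwards [hN, (tendsto_dg z).eventually (t0.eventually G)] with w h1 g
    rw [fd_eta h g, (h1 i).1, ag_zero,
      (part4 h (dg_mem.1 (ag_zero H w ▸ g.2.2))).2.2, cx]
  · filter_upwards [G, (td1 z).eventually hN] with p g h1 i
    rw [fd_eta h g, fd_N h g i (h1 i).2]
  · have t1 : Tendsto (fun p : (Fin k → ℝ) × E n => (cx p.1, dg p.2)) (𝓝 (0, z))
        (𝓝 ((0 : E k), dg z)) := by
      refine Continuous.tendsto' (Continuous.prodMk ?_ (cont_dg.comp continuous_snd)) _ _ ?_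
      · exact continuous_pi fun i => continuous_ofReal.comp
          ((continuous_apply i).comp continuous_fst)
      · exact Prod.ext (funext fun i => by simp [cx]) rfl
    filter_upwards [t1.eventually G] with p g
    have b := dg_mem.1 (ag_dg H p.1 p.2 ▸ g.2.2)
    rw [ag_dg]
    exact (ph_ev h b).self_of_nhds.symm
  · have ts : Tendsto (fun u : E n => star u) (𝓝 (star z)) (𝓝 z) :=
      continuous_star.tendsto' _ _ (star_star z)
    have dn : ∀ᶠ w in 𝓝 z, d w ≠ 0 := (hn_at hd).continuousAt.eventually_ne d0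
    refine ⟨fun i u => (star (d (star u)))⁻¹ • star (N i (star u)), fun i => ?_, ?_⟩
    · filter_upwards [ts.eventually hd, ts.eventually (hn' i), ts.eventually dn] with u h1 h2 h3
      have a1 := h1.star_star
      rw [star_star] at a1
      exact (DifferentiableAt.inv a1 (star_ne_zero.2 h3)).smul (diff_star_star h2)
    · filter_upwards [G, (td2 z).eventually hN, (td2 z).eventually dn] with p g h1 h2 i
      rw [fd_eta h g, fd_Y h g i h2 (h1 i).2]

end Pool.Agent.Lib.RAD
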