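import Pool.Agent.Lib.RAD.Blue
import Pool.Agent.Lib.RAD.Kit
import Pool.Agent.Lib.RA.K_At
import Pool.Agent.Lib.RA.B_TV

/-! Project ra1, step D: real translations of admissible germs. -/

open scoped Classical Topology ContDiff ComplexOrder Matrix
open Set Complex Metric Filter

set_option linter.unusedVariables false

noncomputable section

namespace Pool.Agent.Lib.RAD

open Pool.Agent.Lib.SV (E)
open Pool.Agent.Lib.HS32 Pool.Agent.Lib.RA

namespace SHF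

variable {n k j : ℕ}

theorem sh_eq (t : E (k + j)) (a : Fin k → ℝ) : sh t a = t + TVB.ioL k j a := rfl

theorem sh_sh (t : E (k + j)) (a b : Fin k → ℝ) : sh (sh t a) b = sh t (a + b) := by
  simp only [sh_eq, map_add, add_assoc]

theorem pj_seg {t : E (k + j)} {a : Fin k → ℝ} {R τ : ℝ} (h0 : ‖pj t‖ < R)
    (h1 : ‖pj (sh t a)‖ < R) (hτ : τ ∈ Icc (0 : ℝ) 1) : ‖pj (sh t (τ • a))‖ < R := by
  have e : pj (sh t (τ • a)) = (1 - τ) • pj t + τ • pj (sh t a) := by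
    rw [← TVB.pj_smul, ← TVB.pj_smul, ← TVB.pj_add]
    congr 1
    simp only [sh_eq, map_smul, smul_add, sub_smul, one_smul]
    abel
  rw [e, ← mem_ball_zero_iff]
  exact convex_ball (0 : E (k + j)) R (mem_ball_zero_iff.2 h0) (mem_ball_zero_iff.2 h1)
    (by linarith [hτ.2]) hτ.1 (by ring)

variable {M : Mf n} {ρ : (Fin k → ℝ) → M.X → ℝ} {x : M.X}

theorem an_of_ja {ξ : Fin k → ℝ} (h : JA M ρ ξ x) : AnAt M (ρ ξ) x := fun e he hx =>
  (h e he hx).comp_of_eq (f := fun z : E n => (ξ, z)) (analyticAt_const.prod analyticAt_id) rfl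

/-- The identity of the family holds near the translated parameter. -/
theorem key {Φ : E (k + j) × E (k + j) → ℂ} {δ c : ℝ} {ξ ζ : Fin k → ℝ} {H : M.X → E (k + j)}
    (hT : Tv k j Φ δ c) (hJ : ∀ τ ∈ Icc (0 : ℝ) 1, JA M ρ (ξ + τ • ζ) x) (hH : HolAt M H x)
    (h0 : ‖pj (H x)‖ < 2 * δ) (h1 : ‖pj (sh (H x) ζ)‖ < 2 * δ) (hF : Fam1 M ρ (ph0 Φ) ξ H x) :
    ∀ᶠ w : (Fin k → ℝ) × M.X in 𝓝 (ζ, x),
      ρ (ξ + w.1) w.2 - ρ ξ w.2 = ph0 Φ (sh (H w.2) w.1) - ph0 Φ (H w.2) := by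
  set e := M.ch x with he
  have hC : e ∈ M.C := Mf.ch_mem x
  have hx : x ∈ e.source := Mf.mem_ch x
  have hl : e.symm (e x) = x := e.left_inv hx
  set A : (Fin k → ℝ) × E n → ℝ := fun w =>
    (ρ (ξ + w.1) (e.symm w.2) - ρ ξ (e.symm w.2)) -
      (ph0 Φ (sh (H (e.symm w.2)) w.1) - ph0 Φ (H (e.symm w.2))) with hA
  have hHa : AnalyticAt ℝ (H ∘ e.symm) (e x) := KA.an_of_hol (hH e hC hx)
  have han : ∀ τ ∈ Icc (0 : ℝ) 1,
      AnalyticAt ℝ A (((0 : Fin k → ℝ), e x) + τ • (ζ, (0 : E n))) := by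
    intro τ hτ
    have ep : ((0 : Fin k → ℝ), e x) + τ • (ζ, (0 : E n)) = (τ • ζ, e x) := by simp
    rw [ep]
    have j0 : JA M ρ ξ x := by simpa using hJ 0 ⟨le_rfl, zero_le_one⟩
    have hs : AnalyticAt ℝ (fun w : (Fin k → ℝ) × E n => H (e.symm w.2)) (τ • ζ, e x) :=
      hHa.comp_of_eq (f := fun w : (Fin k → ℝ) × E n => w.2) analyticAt_snd rfl
    have a1 : AnalyticAt ℝ (fun w : (Fin k → ℝ) × E n => ρ (ξ + w.1) (e.symm w.2))
        (τ • ζ, e x) :=
      (hJ τ hτ e hC hx).comp_of_eq (f := fun w : (Fin k → ℝ) × E n => (ξ + w.1, w.2))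
        ((analyticAt_const.add analyticAt_fst).prod analyticAt_snd) rfl
    have a2 : AnalyticAt ℝ (fun w : (Fin k → ℝ) × E n => ρ ξ (e.symm w.2)) (τ • ζ, e x) :=
      (j0 e hC hx).comp_of_eq (f := fun w : (Fin k → ℝ) × E n => (ξ, w.2))
        (analyticAt_const.prod analyticAt_snd) rfl
    have a3 : AnalyticAt ℝ (fun w : (Fin k → ℝ) × E n => ph0 Φ (sh (H (e.symm w.2)) w.1))
        (τ • ζ, e x) := by
      refine (TVB.part5 hT (pj_seg h0 h1 hτ)).1.comp_of_eq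
        (f := fun w : (Fin k → ℝ) × E n => sh (H (e.symm w.2)) w.1) ?_ (by simp only [hl])
      exact hs.add (((TVB.ioL k j).analyticAt _).comp analyticAt_fst)
    have a4 : AnalyticAt ℝ (fun w : (Fin k → ℝ) × E n => ph0 Φ (H (e.symm w.2)))
        (τ • ζ, e x) :=
      (TVB.part5 hT h0).1.comp_of_eq
        (f := fun w : (Fin k → ℝ) × E n => H (e.symm w.2)) hs (by simp only [hl])
    exact (a1.sub a2).sub (a3.sub a4)
  have hz : ∀ᶠ w in 𝓝 ((0 : Fin k → ℝ), e x), A w = 0 := by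
    have t : Tendsto (fun w : (Fin k → ℝ) × E n => (w.1, e.symm w.2)) (𝓝 (0, e x))
        (𝓝 (0, x)) :=
      continuous_fst.continuousAt.tendsto.prodMk_nhds
        ((e.tendsto_symm hx).comp continuous_snd.continuousAt.tendsto)
    filter_upwards [t.eventually hF] with w hw using sub_eq_zero.2 hw
  have hq := DK.prp_seg han hz
  have ep : ((0 : Fin k → ℝ), e x) + (ζ, (0 : E n)) = (ζ, e x) := by simp
  rw [ep] at hq
  have t : Tendsto (fun w : (Fin k → ℝ) × M.X => (w.1, e w.2)) (𝓝 (ζ, x)) (𝓝 (ζ, e x)) :=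
    continuous_fst.continuousAt.tendsto.prodMk_nhds
      ((e.continuousAt hx).tendsto.comp continuous_snd.continuousAt.tendsto)
  have t' : ∀ᶠ w : (Fin k → ℝ) × M.X in 𝓝 (ζ, x), w.2 ∈ e.source :=
    continuous_snd.continuousAt.tendsto.eventually (e.open_source.eventually_mem hx)
  filter_upwards [t.eventually hq, t'] with w hw hs
  simp only [hA, e.left_inv hs] at hw
  exact sub_eq_zero.1 hw

end SHF

open SHF in
theorem st_SHF : St_SHF := by
  intro n k j M φ ρ Φ δ c ξ ζ H x hT hJ hA h1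
  have hH : HolAt M H x := hA.iso.1
  have K := key hT hJ hH hA.val h1 hA.fam
  have t0 : Tendsto (fun y : M.X => (ζ, y)) (𝓝 x) (𝓝 (ζ, x)) :=
    tendsto_const_nhds.prodMk_nhds tendsto_id
  have K0 : ∀ᶠ y in 𝓝 x,
      ρ (ξ + ζ) y - ρ ξ y = ph0 Φ (sh (H y) ζ) - ph0 Φ (H y) := t0.eventually K
  refine ⟨⟨⟨?_, ?_⟩, h1, ?_⟩, ?_⟩
  · intro e he hx
    filter_upwards [hH e he hx] with w hw
    exact hw.add_const (TVB.ioL k j ζ)
  · have j0 : JA M ρ ξ x := by simpa using hJ 0 ⟨le_rfl, zero_le_one⟩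
    have j1 : JA M ρ (ξ + ζ) x := by simpa using hJ 1 ⟨zero_le_one, le_rfl⟩
    have a0 : AnAt M (ph0 Φ ∘ H) x :=
      KA.anAt_comp (TVB.part5 hT hA.val).1 (KA.anAt_of_hol hH)
    filter_upwards [hA.iso.2, K0.eventually_nhds, KA.anAt_ev a0, KA.anAt_ev (an_of_ja j0),
      KA.anAt_ev (an_of_ja j1)] with y hy hK b0 b1 b2
    intro e he hx
    have c0 := KA.cd_of_an (KA.an_ofReal (b0 e he hx))
    have c1 := KA.cd_of_an (KA.an_ofReal (b1 e he hx))
    have c2 := KA.cd_of_an (KA.an_ofReal (b2 e he hx))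
    have q : (ph0 Φ ∘ fun y => sh (H y) ζ) =ᶠ[𝓝 y]
        fun y => (ph0 Φ ∘ H) y + (ρ (ξ + ζ) y - ρ ξ y) := by
      filter_upwards [hK] with w hw
      simp only [Function.comp]
      linarith
    have s1 := hess_add c0 (c2.sub c1)
    rw [hess_sub c2 c1] at s1
    simp only [← ofReal_sub, ← ofReal_add] at s1
    have s2 : M.hs (fun y => (ph0 Φ ∘ H) y + (ρ (ξ + ζ) y - ρ ξ y)) e (e y) =
        M.hs (ph0 Φ ∘ H) e (e y) + (M.hs (ρ (ξ + ζ)) e (e y) - M.hs (ρ ξ) e (e y)) := s1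
    rw [KA.hs_congr q e he hx, s2, hy e he hx]
    simp only [Pi.add_apply]
    abel
  · have t1 : Tendsto (fun w : (Fin k → ℝ) × M.X => (ζ + w.1, w.2)) (𝓝 (0, x)) (𝓝 (ζ, x)) := by
      refine Tendsto.prodMk_nhds ?_ continuous_snd.continuousAt.tendsto
      exact Continuous.tendsto' (f := fun w : (Fin k → ℝ) × M.X => ζ + w.1) (by fun_prop) _ _
        (by simp)
    have t2 : Tendsto (fun w : (Fin k → ℝ) × M.X => w.2) (𝓝 (0, x)) (𝓝 x) :=
      continuous_snd.continuousAt.tendsto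
    filter_upwards [t1.eventually K, t2.eventually K0] with w h2 h3
    rw [sh_sh, add_assoc]
    linarith
  · intro hS e he hx
    have : ((fun y => sh (H y) ζ) ∘ e.symm) = fun z => (H ∘ e.symm) z + TVB.ioL k j ζ := rfl
    rw [this, fderiv_add_const]
    exact hS e he hx

end Pool.Agent.Lib.RAD
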