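import Pool.Agent.Lib.RAD.Blue
import Pool.Agent.Lib.RA.T_POL
import Pool.Agent.Lib.RA.T_PK

/-! Step D: the radius in the parameter grows by a fixed amount. -/

open scoped Classical Topology ContDiff ComplexOrder Matrix
open Set MeasureTheory Complex Metric Filter

set_option linter.unusedVariables false

noncomputable section

namespace Pool.Agent.Lib.RAD

open Pool.Agent.Lib.SV (E)
open Pool.Agent.Lib.HS32 Pool.Agent.Lib.RA

namespace STP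

theorem dist_cx {k : ℕ} (a b : Fin k → ℝ) : dist (cx a) (cx b) = dist a b := by
  simp only [dist_pi_def, cx, Complex.isometry_ofReal.nndist_eq]

theorem cx_mem {k : ℕ} {a b : Fin k → ℝ} {t : ℝ} (h : a ∈ ball b t) : cx a ∈ ball (cx b) t := by
  rwa [mem_ball, dist_cx]

theorem near {k : ℕ} {ζ : Fin k → ℝ} {R t : ℝ} (hR : 0 < R) (ht : 0 < t)
    (h : ζ ∈ ball (0 : Fin k → ℝ) (R + t)) : ∃ ξ ∈ ball (0 : Fin k → ℝ) R, ζ ∈ ball ξ t := by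
  obtain ⟨y, h1, h2⟩ := exists_dist_lt_lt ht hR (mem_ball.1 h)
  exact ⟨y, h2, h1⟩

theorem evz {k : ℕ} {g : E k → ℂ} {ξ : Fin k → ℝ} (h : ∀ᶠ ζ in 𝓝 (cx ξ), DifferentiableAt ℂ g ζ)
    (h0 : ∀ᶠ ζ in 𝓝 ξ, g (cx ζ) = 0) : ∀ᶠ ζ in 𝓝 (cx ξ), g ζ = 0 :=
  (RF.re k).ev_zero (v := ξ) h h0

theorem slice {n k : ℕ} {F : E k × (E n × E n) → ℂ} {ξ : E k} {c z : E n} {t d : ℝ}
    (h : DifferentiableOn ℂ F (ball ξ t ×ˢ ball (dg c) d)) (hz : z ∈ ball c d) :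
    DifferentiableOn ℂ (fun ζ => F (ζ, dg z)) (ball ξ t) :=
  h.comp (differentiable_id.prodMk (differentiable_const _)).differentiableOn
    fun ζ hζ => ⟨hζ, PK.dg_mem_ball.2 hz⟩

/-- The widened polarisation. -/
theorem wide (WID : St_WID) {n k : ℕ} {M : Mf n} {φ : M.Fam ℝ} {V : M.Cov}
    {ρ : (Fin k → ℝ) → M.X → ℝ} {ξ : Fin k → ℝ} {s d B : ℝ} (hs : 0 < s) (hd : 0 < d) (hB : 1 ≤ B)
    (hp : Pzd M V ρ ξ s d B) (ht : Trf M φ ρ ξ s) (a : Fin V.r) {c : E n}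
    (hc : c ∈ closedBall (V.c a) (2 * V.ρ a)) :
    ∃ F : E k × (E n × E n) → ℂ,
      DifferentiableOn ℂ F (ball (cx ξ) (3 * s / 2) ×ˢ ball (dg c) (d / 64)) ∧
      (∀ p ∈ ball (cx ξ) (3 * s / 2) ×ˢ ball (dg c) (d / 64), ‖F p‖ ≤ 11 * B) ∧
      ∀ ζ ∈ ball ξ s, ∀ z ∈ ball c (d / 64), F (cx ζ, dg z) = ρ ζ ((V.e a).symm z) := by
  obtain ⟨h0, F, h1, h2, h3⟩ := hp a c hc
  obtain ⟨F', g1, g2, g3⟩ := WID n k F (cx ξ) c s d B hs hd hB h1 h2 (fun z hz => by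
    have e1 := ht ((V.e a).symm z)
    rw [← (V.e a).symm.map_nhds_eq (h0 hz), frequently_map] at e1
    refine (e1.and_eventually (isOpen_ball.mem_nhds hz)).mono ?_
    rintro w ⟨⟨⟨g, κ, k1, k2, k3⟩, -⟩, hw⟩
    refine ⟨g, κ, k1, k2, ?_⟩
    have k4 := slice h1 hw
    have k5 := evz (ξ := ξ) (g := fun ζ => F (ζ, dg w) - (g ζ + κ)) (by
      filter_upwards [ball_mem_nhds (cx ξ) hs] with ζ hζ
      have k6 : ζ ∈ ball (cx ξ) (2 * s) := ball_subset_ball (by linarith) hζ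
      exact (k4.differentiableAt (isOpen_ball.mem_nhds hζ)).fun_sub
        ((k1.differentiableAt (isOpen_ball.mem_nhds k6)).add_const κ)) (by
      filter_upwards [k3, ball_mem_nhds ξ hs] with ζ e hζ
      exact sub_eq_zero.2 ((h3 ζ hζ w hw).trans e))
    exact k5.mono fun ζ e => sub_eq_zero.1 e)
  refine ⟨F', g1, g2, fun ζ hζ z hz => ?_⟩
  rw [g3 (mk_mem_prod (cx_mem hζ) (PK.dg_mem_ball.2 hz))]
  exact h3 ζ hζ z (ball_subset_ball (by linarith) hz)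

end STP

open STP in
theorem st_STP (WID : St_WID) (GLU : St_GLU) : St_STP := by
  intro n k j M φ μ V ρ R s d B h ht
  have hs := h.s0
  have hd := h.d0
  have hR := h.r0
  have hd' : 0 < d / 64 := by linarith
  have hW := fun ξ hξ a c hc => wide WID hs hd h.b1 (h.pz ξ hξ) (ht ξ hξ) a (c := c) hc
  have hpt : ∀ x, ∃ a, x ∈ (V.e a).source ∧ V.e a x ∈ closedBall (V.c a) (2 * V.ρ a) := fun x => by
    obtain ⟨a, h1, h2, -⟩ := V.cov x
    exact ⟨a, h1, closedBall_subset_closedBall (by linarith [V.pos a]) (ball_subset_closedBall h2)⟩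
  have hsl : ∀ x, ∀ ξ ∈ ball (0 : Fin k → ℝ) R, ∃ g : E k → ℂ,
      DifferentiableOn ℂ g (ball (cx ξ) (3 * s / 2)) ∧ ∀ ζ ∈ ball ξ s, g (cx ζ) = ρ ζ x := by
    intro x ξ hξ
    obtain ⟨a, h1, h2⟩ := hpt x
    obtain ⟨F, g1, -, g3⟩ := hW ξ hξ a _ h2
    refine ⟨_, slice g1 (mem_ball_self hd'), fun ζ hζ => ?_⟩
    rw [g3 ζ hζ _ (mem_ball_self hd'), (V.e a).left_inv h1]
  choose f' hf' using fun x => GLU k (fun ξ => ρ ξ x) R s (3 * s / 2) hs (by linarith) (hsl x)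
  have e : ∀ ζ ∈ ball (0 : Fin k → ℝ) (R + s), (fun x => f' x ζ) = ρ ζ := fun ζ hζ => by
    funext x
    obtain ⟨ξ, h1, h2⟩ := near hR hs hζ
    obtain ⟨g, g1, g2⟩ := hsl x ξ h1
    exact ofReal_injective
      ((hf' x ξ h1 g g1 g2 ζ (ball_subset_ball (by linarith) h2)).symm.trans (g2 ζ h2))
  have h0 : ball (0 : Fin k → ℝ) (R + s) ∈ 𝓝 0 := ball_mem_nhds _ (by linarith)
  have e0 := e 0 (mem_of_mem_nhds h0)
  refine ⟨fun ξ x => f' x ξ, ⟨⟨fun x => (congrFun e0 x).trans (h.z0 x), ?_⟩, by linarith, hs, hd',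
    by linarith [h.b1], fun ξ₁ hξ₁ a c hc => ?_, fun x => ?_⟩, e⟩
  · intro x₀ Φ δ c O H σ hb x hx
    have h1 : ∀ᶠ w : (Fin k → ℝ) × M.X in 𝓝 (0, x), w.1 ∈ ball (0 : Fin k → ℝ) (R + s) :=
      continuous_fst.continuousAt.eventually h0
    filter_upwards [h.box x₀ Φ δ c O H σ hb x hx, h1] with w hw hw1
    rw [zero_add] at hw ⊢
    rw [congrFun (e w.1 hw1) w.2, congrFun e0 w.2]
    exact hw
  · obtain ⟨ξ, h1, h2⟩ := near hR (half_pos hs) hξ₁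
    obtain ⟨F, g1, g2, g3⟩ := hW ξ h1 a c hc
    have b1 : ball ξ₁ s ⊆ ball ξ (3 * s / 2) :=
      ball_subset_ball' (by linarith [mem_ball.1 h2])
    have b2 : ball (cx ξ₁) s ×ˢ ball (dg c) (d / 64) ⊆
        ball (cx ξ) (3 * s / 2) ×ˢ ball (dg c) (d / 64) :=
      prod_mono (ball_subset_ball' (by rw [dist_cx]; linarith [mem_ball.1 h2])) subset_rfl
    refine ⟨(ball_subset_ball (by linarith)).trans (h.pz ξ h1 a c hc).1, F, g1.mono b2,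
      fun w hw => g2 w (b2 hw), fun ζ hζ z hz => ?_⟩
    exact hf' _ ξ h1 _ (slice g1 hz) (fun ζ' hζ' => g3 ζ' hζ' z hz) ζ (b1 hζ)
  · obtain ⟨g, κ, g1, g2, g3⟩ := h.st x
    refine ⟨g, κ, g1, g2, ?_⟩
    filter_upwards [g3, h0] with ζ a b
    rw [congrFun (e ζ b) x]
    exact a

end Pool.Agent.Lib.RAD
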