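import Pool.Agent.Lib.RAD.Blue

/-! Project ra1, step D: the transport from the parameter zero. -/

open scoped Classical Topology ContDiff ComplexOrder Matrix
open Set Complex Metric Filter

set_option linter.unusedVariables false

noncomputable section

namespace Pool.Agent.Lib.RAD

open Pool.Agent.Lib.SV (E)
open Pool.Agent.Lib.HS32 Pool.Agent.Lib.RA

theorem TRF.adm0 {n k j : ℕ} {M : Mf n} {φ : M.Fam ℝ} {μ : Fin k → M.X → ℝ}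
    {ρ : (Fin k → ℝ) → M.X → ℝ} {x₀ x : M.X} {Φ : E (k + j) × E (k + j) → ℂ} {δ c : ℝ}
    {O : Set M.X} {H : M.X → E (k + j)} {σ : E (k + j) → M.X} (hi : Ini M j φ μ ρ)
    (hb : Box M φ μ x₀ Φ δ c O H σ) (hx : x ∈ O) : Adm M φ ρ Φ δ 0 H x := by
  have e : M.hw φ + M.hs (ρ 0) = M.hw φ := by
    funext e z
    have : M.lc (ρ 0) e = fun _ => 0 := funext fun w => by simp [Mf.lc, hi.z0]
    simp [Mf.hs, this]
  exact ⟨e.symm ▸ (hb.adm x hx).iso, (hb.adm x hx).val, hi.box x₀ Φ δ c O H σ hb x hx⟩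

theorem st_TRF (hJAP : St_JAP) (hJPC : St_JPC) (hJPA : St_JPA) (hCHA : St_CHA) (hBT1 : St_BT1)
    (hBT2 : St_BT2) : St_TRF := by
  intro n k j M _ G φ μ V ρ R s d B hS hd hB hF st ξ hξ x
  have ja : ∀ ζ ∈ ball (0 : Fin k → ℝ) R, ∀ x, JA M ρ ζ x := fun ζ hζ =>
    hJAP n k M V ρ ζ s d B st.s0 st.d0 (st.pz ζ hζ)
  have j0 := ja 0 (mem_ball_self st.r0)
  have fr : ∀ x, ∃ᶠ y in 𝓝 x, y ∈ Xg M φ (k + j) μ := fun x => mem_closure_iff_frequently.1 (hd x)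
  have jp0 : ∀ x, JP M φ ρ 0 x := fun x =>
    (hJPC n k M φ ρ hS.an).1 0 x (j0 x) ((fr x).mono fun y hy => by
      obtain ⟨Φ, δ, c, O, H, σ, hb⟩ := hB y hy
      exact hJPA n k j M φ ρ Φ δ c 0 H y hS.an hb.tv (j0 y) (TRF.adm0 st.toIni hb hb.mem))
  have hξ' : -ξ ∈ ball (0 : Fin k → ℝ) R := by simpa using hξ
  have hτ : ∀ τ ∈ Icc (0 : ℝ) 1, τ • ξ ∈ ball (0 : Fin k → ℝ) R := fun τ hτ => by
    rw [mem_ball_zero_iff] at hξ ⊢
    rw [norm_smul, Real.norm_of_nonneg hτ.1]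
    exact (mul_le_of_le_one_left (norm_nonneg _) hτ.2).trans_lt hξ
  refine frequently_frequently_nhds.1 ((fr x).mono fun x₀ hx₀ => ?_)
  obtain ⟨Φ, δ, c, O, H, σ, hb⟩ := hB x₀ hx₀
  obtain ⟨N, hN⟩ := hF x₀ Φ δ c O H σ hb
  have d2 : 0 < 2 * δ := mul_pos two_pos hb.tv.d0
  refine frequently_iff.2 fun {U} hU => ?_
  obtain ⟨ε, e0, he⟩ := Metric.mem_nhds_iff.1
    ((hb.sec 0 (mem_ball_self d2)).2.2.1.preimage_mem_nhds (hb.s0.symm ▸ hU))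
  obtain ⟨H', y, a1, a2, -, a3⟩ := hCHA n k j N M G φ μ ρ R x₀ Φ δ c O H σ hS st.toIni ja hb hN
    (-ξ) hξ' (min ε (2 * δ)) (lt_min e0 d2)
  obtain ⟨b1, b2, -⟩ := hb.sec (H' y) (mem_ball_zero_iff.2 (a3.trans_le (min_le_right _ _)))
  have a0 := TRF.adm0 st.toIni hb b1
  obtain ⟨θ, t1, t2, t3, t4, t5⟩ := hBT1 n k j M φ ρ Φ δ ξ H H' _ y
    (fun τ h => ⟨ja _ (hτ τ h) _, ja _ (by simpa using hτ τ h) _⟩) a0 a1 a2 b2.symm
  refine ⟨σ (H' y), he (mem_ball_zero_iff.2 (a3.trans_le (min_le_left _ _))), ?_,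
    hBT2 n k j M φ ρ Φ δ c ξ H H' _ y θ hS.an hb.tv (j0 _) (j0 _) (ja _ hξ' _) a0 a1 t1 t2 t3 t4 t5
      (jp0 y)⟩
  obtain ⟨g, κ, g1, g2, g3⟩ := st.st y
  have c0 : cx (0 : Fin k → ℝ) = 0 := funext fun i => by simp [cx]
  have m : MapsTo (fun ζ => ζ - cx ξ) (ball (cx ξ) (2 * s)) (ball (cx 0) (2 * s)) := fun ζ hζ => by
    rwa [c0, mem_ball_zero_iff, ← mem_ball_iff_norm]
  refine ⟨fun ζ => g (ζ - cx ξ), κ + (ρ 0 (σ (H' y)) - ρ (-ξ) y : ℝ),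
    g1.comp (by fun_prop) m, fun ζ hζ => g2 _ (m hζ), ?_⟩
  have l1 : Tendsto (fun a => a - ξ) (𝓝 ξ) (𝓝 0) :=
    (continuous_sub_right ξ).tendsto' _ _ (sub_self ξ)
  filter_upwards [l1.eventually g3, (l1.prodMk_nhds tendsto_const_nhds).eventually t5] with a p1 p2
  have e1 : cx (a - ξ) = cx a - cx ξ := funext fun i => by simp [cx]
  simp only [add_sub_cancel, t1] at p2
  rw [← e1, ← add_assoc, ← p1, ← ofReal_add]
  exact congrArg _ (by linarith)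

end Pool.Agent.Lib.RAD
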