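import Pool.Agent.Lib.RAD.Blue
import Pool.Agent.Lib.RA.T_TC
import Pool.Agent.Lib.RA.T_AN

/-! Project ra1, step D, block WID: the radius in the parameter grows, the width shrinks. -/

open scoped Classical Topology ContDiff ComplexOrder Matrix Nat
open Set MeasureTheory Complex Metric Filter

set_option linter.unusedVariables false

noncomputable section

namespace Pool.Agent.Lib.RAD

open Pool.Agent.Lib.SV (E)
open Pool.Agent.Lib.HS32 Pool.Agent.Lib.RA

namespace WID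

section gen

variable {V P : Type*} [NormedAddCommGroup V] [NormedSpace ℂ V] [FiniteDimensional ℂ V]
  [NormedAddCommGroup P] [NormedSpace ℂ P] [FiniteDimensional ℂ P]

/-- The homogeneous term of degree `l` in the first variable. -/
def co (F : V × P → ℂ) (ξ : V) (l : ℕ) (η : V) (p : P) : ℂ :=
  ((l ! : ℂ)⁻¹) • iteratedDeriv l (fun τ : ℂ => F (ξ + τ • η, p)) 0

omit [FiniteDimensional ℂ V] in
/-- Cauchy estimate on a slice. -/
theorem slice {g : V → ℂ} {ξ η : V} {r t M : ℝ} (ht : 0 < t) (hg : DifferentiableOn ℂ g (ball ξ r))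
    (hM : ∀ ζ ∈ ball ξ r, ‖g ζ‖ ≤ M) (hη : ‖η‖ < t * r) (l : ℕ) :
    ‖((l ! : ℂ)⁻¹) • iteratedDeriv l (fun τ : ℂ => g (ξ + τ • η)) 0‖ ≤ M * t ^ l := by
  have hm : ∀ τ ∈ closedBall (0 : ℂ) t⁻¹, ξ + τ • η ∈ ball ξ r := by
    intro τ hτ
    rw [mem_closedBall_zero_iff] at hτ
    rw [mem_ball_iff_norm, add_sub_cancel_left, norm_smul]
    calc ‖τ‖ * ‖η‖ ≤ t⁻¹ * ‖η‖ := mul_le_mul_of_nonneg_right hτ (norm_nonneg _)
      _ < t⁻¹ * (t * r) := mul_lt_mul_of_pos_left hη (inv_pos.2 ht)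
      _ = r := by field_simp
  have hd : DifferentiableOn ℂ (fun τ : ℂ => g (ξ + τ • η)) (closedBall 0 t⁻¹) :=
    hg.comp (by fun_prop : Differentiable ℂ fun τ : ℂ => ξ + τ • η).differentiableOn hm
  have hc : DiffContOnCl ℂ (fun τ : ℂ => g (ξ + τ • η)) (ball 0 t⁻¹) :=
    DifferentiableOn.diffContOnCl (by rwa [closure_ball _ (inv_pos.2 ht).ne'])
  have h1 := Complex.norm_iteratedDeriv_le_of_forall_mem_sphere_norm_le l (inv_pos.2 ht) hc
    (C := M) fun τ hτ => hM _ (hm τ (sphere_subset_closedBall hτ))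
  have hf : (0 : ℝ) < l ! := by exact_mod_cast l.factorial_pos
  rw [norm_smul, norm_inv, Complex.norm_natCast]
  calc _ ≤ (l ! : ℝ)⁻¹ * (l ! * M / t⁻¹ ^ l) := mul_le_mul_of_nonneg_left h1 (by positivity)
    _ = M * t ^ l := by rw [inv_pow]; field_simp

theorem co_eq {F : V × P → ℂ} {ξ : V} {s : ℝ} {O : Set P} (hs : 0 < s) (hO : IsOpen O)
    (hF : DifferentiableOn ℂ F (ball ξ s ×ˢ O)) (l : ℕ) (η : V) {p : P} (hp : p ∈ O) :
    co F ξ l η p = ((l ! : ℂ)⁻¹) • iteratedFDeriv ℂ l F (ξ, p) fun _ => (η, 0) := by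
  rw [← ANB.iter_line (isOpen_ball.prod hO) hF (x := (ξ, p)) ⟨mem_ball_self hs, hp⟩ (η, 0) l]
  simp [co]

/-- The terms are holomorphic in both variables. -/
theorem co_diff {F : V × P → ℂ} {ξ : V} {s : ℝ} {O : Set P} (hs : 0 < s) (hO : IsOpen O)
    (hF : DifferentiableOn ℂ F (ball ξ s ×ˢ O)) (l : ℕ) {q : V × P} (hq : q.2 ∈ O) :
    DifferentiableAt ℂ (fun q : V × P => co F ξ l q.1 q.2) q := by
  have hU : IsOpen (ball ξ s ×ˢ O) := isOpen_ball.prod hO
  have h1 : DifferentiableAt ℂ (iteratedFDeriv ℂ l F) (ξ, q.2) :=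
    (ANB.diff_iter hU hF l).differentiableAt (hU.mem_nhds ⟨mem_ball_self hs, hq⟩)
  have h2 : DifferentiableAt ℂ (fun q : V × P => iteratedFDeriv ℂ l F (ξ, q.2)) q :=
    h1.comp q (by fun_prop : DifferentiableAt ℂ (fun q : V × P => (ξ, q.2)) q)
  have h3 : DifferentiableAt ℂ (fun q : V × P => ((q.1, 0) : V × P)) q := by fun_prop
  have h4 := (h2.hasFDerivAt.continuousMultilinearMap_apply
    (g := fun (_ : Fin l) (q : V × P) => ((q.1, 0) : V × P)) fun _ => h3.hasFDerivAt).differentiableAt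
  refine (h4.const_smul ((l ! : ℂ)⁻¹)).congr_of_eventuallyEq ?_
  have h5 : ∀ᶠ y : V × P in 𝓝 q, y.2 ∈ O := continuous_snd.continuousAt.eventually (hO.mem_nhds hq)
  filter_upwards [h5] with y hy
  exact co_eq hs hO hF l y.1 hy

omit [FiniteDimensional ℂ V] [FiniteDimensional ℂ P] in
theorem sl_diff {F : V × P → ℂ} {ξ : V} {s : ℝ} {O : Set P}
    (hF : DifferentiableOn ℂ F (ball ξ s ×ˢ O)) {p : P} (hp : p ∈ O) :
    DifferentiableOn ℂ (fun ζ => F (ζ, p)) (ball ξ s) :=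
  hF.comp (by fun_prop : Differentiable ℂ fun ζ : V => (ζ, p)).differentiableOn
    fun ζ hζ => ⟨hζ, hp⟩

omit [FiniteDimensional ℂ P] in
theorem co_sum {F : V × P → ℂ} {ξ : V} {s : ℝ} {O : Set P}
    (hF : DifferentiableOn ℂ F (ball ξ s ×ˢ O)) {ζ : V} (hζ : ζ ∈ ball ξ s) {p : P} (hp : p ∈ O) :
    HasSum (fun l => co F ξ l (ζ - ξ) p) (F (ζ, p)) := by
  have hs : 0 < s := pos_of_mem_ball hζ
  have h1 := ANB.taylor (sl_diff hF hp) (mem_ball_iff_norm.1 hζ)
  rw [add_sub_cancel] at h1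
  have h2 : (fun l => co F ξ l (ζ - ξ) p) = fun k => ((k ! : ℂ)⁻¹) •
      iteratedFDeriv ℂ k (fun ζ => F (ζ, p)) ξ fun _ => ζ - ξ := by
    funext l
    rw [← ANB.iter_line isOpen_ball (sl_diff hF hp) (mem_ball_self hs) (ζ - ξ) l]
    rfl
  rw [h2]
  exact h1

omit [FiniteDimensional ℂ V] [FiniteDimensional ℂ P] [NormedAddCommGroup P] [NormedSpace ℂ P] in
/-- At a good point the terms of positive degree are small. -/
theorem co_good {F : V × P → ℂ} {ξ η : V} {s : ℝ} {p : P} {g : V → ℂ} {κ : ℂ}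
    (hg : DifferentiableOn ℂ g (ball ξ (2 * s))) (h1 : ∀ ζ ∈ ball ξ (2 * s), ‖g ζ‖ ≤ 1)
    (he : ∀ᶠ ζ in 𝓝 ξ, F (ζ, p) = g ζ + κ) (hη : ‖η‖ < 3 * s / 2) {l : ℕ} (hl : 0 < l) :
    ‖co F ξ l η p‖ ≤ (3 / 4) ^ l := by
  have h2 := slice (t := 3 / 4) (by norm_num) hg h1 (η := η) (by linarith) l
  have h3 : Tendsto (fun τ : ℂ => ξ + τ • η) (𝓝 0) (𝓝 ξ) := by
    have : Continuous fun τ : ℂ => ξ + τ • η := by fun_prop
    simpa using this.tendsto 0
  have h4 : (fun τ : ℂ => F (ξ + τ • η, p)) =ᶠ[𝓝 0] fun τ : ℂ => κ + g (ξ + τ • η) := by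
    filter_upwards [h3.eventually he] with τ hτ
    rw [hτ, add_comm]
  rw [co, h4.iteratedDeriv_eq, iteratedDeriv_const_add hl]
  simpa using h2

end gen

theorem num {B : ℝ} (hB : 1 ≤ B) (l : ℕ) :
    ((3 / 4 : ℝ) ^ l) ^ (3 / 4 : ℝ) * (B * (3 / 2) ^ l) ^ (1 / 4 : ℝ) ≤ B * (9 / 10) ^ l := by
  have hB0 : 0 < B := by linarith
  refine le_of_pow_le_pow_left₀ (n := 4) (by norm_num) (by positivity) ?_
  have e1 : (((3 / 4 : ℝ) ^ l) ^ (3 / 4 : ℝ)) ^ 4 = ((3 / 4 : ℝ) ^ l) ^ 3 := by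
    rw [← Real.rpow_natCast _ 4, ← Real.rpow_mul (by positivity), ← Real.rpow_natCast _ 3]
    norm_num
  have e2 : ((B * (3 / 2 : ℝ) ^ l) ^ (1 / 4 : ℝ)) ^ 4 = B * (3 / 2 : ℝ) ^ l := by
    rw [← Real.rpow_natCast _ 4, ← Real.rpow_mul (by positivity)]
    norm_num
  rw [mul_pow, e1, e2]
  have e3 : ((3 / 4 : ℝ) ^ l) ^ 3 * (B * (3 / 2) ^ l) = B * ((3 / 4) ^ 3 * (3 / 2)) ^ l := by
    rw [mul_pow, ← pow_mul, ← pow_mul, mul_comm l 3]; ring
  have e4 : (B * (9 / 10 : ℝ) ^ l) ^ 4 = B ^ 4 * ((9 / 10) ^ 4) ^ l := by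
    rw [mul_pow, ← pow_mul, ← pow_mul, mul_comm l 4]
  rw [e3, e4]
  refine mul_le_mul ?_ (pow_le_pow_left₀ (by norm_num) (by norm_num) l) (by positivity)
    (by positivity)
  exact le_self_pow₀ hB (by norm_num)

variable {n : ℕ}

theorem dg_mem {c z : E n} {d : ℝ} (hz : z ∈ ball c d) : dg z ∈ ball (dg c) d := by
  rw [mem_ball_iff_norm] at hz ⊢
  have : dg z - dg c = (z - c, star (z - c)) := by simp [dg]
  rw [this, Prod.norm_def, norm_star, max_self]
  exact hz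

theorem cont_dg : Continuous (dg : E n → E n × E n) := by
  unfold dg; fun_prop

/-- Two constants: from the diagonal to a thin neighbourhood. -/
theorem thin {G : E n × E n → ℂ} {c : E n} {d m M : ℝ}
    (hG : DifferentiableOn ℂ G (ball (dg c) d)) (hm : 0 < m) (hmM : m ≤ M)
    (hM : ∀ p ∈ ball (dg c) d, ‖G p‖ ≤ M) (hd : ∀ z ∈ ball c d, ‖G (dg z)‖ ≤ m)
    {p : E n × E n} (hp : p ∈ ball (dg c) (d / 64)) :
    ‖G p‖ ≤ m ^ (3 / 4 : ℝ) * M ^ (1 / 4 : ℝ) := by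
  obtain ⟨z, u⟩ := p
  have hd0 : 0 < d := by have := pos_of_mem_ball hp; linarith
  rw [mem_ball_iff_norm, Prod.norm_def, max_lt_iff] at hp
  have hz : ‖z - c‖ < d / 64 := hp.1
  have hu : ‖star u - c‖ < d / 64 := by
    have h : ‖u - star c‖ < d / 64 := hp.2
    rwa [← norm_star, star_sub, star_star] at h
  set a : E n := (2⁻¹ : ℂ) • (z + star u) with ha
  set b : E n := (-(32 / 3) * I : ℂ) • (z - star u) with hb
  have ha' : ‖a - c‖ < d / 64 := by
    have : a - c = (2⁻¹ : ℂ) • ((z - c) + (star u - c)) := by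
      rw [ha]; module
    rw [this, norm_smul]
    have h := norm_add_le (z - c) (star u - c)
    have h2 : ‖(2⁻¹ : ℂ)‖ = 2⁻¹ := by simp
    rw [h2]
    linarith
  have hb' : ‖b‖ ≤ d / 3 := by
    have h : ‖z - star u‖ ≤ ‖z - c‖ + ‖star u - c‖ := by
      have : z - star u = (z - c) - (star u - c) := by abel
      rw [this]; exact norm_sub_le _ _
    have h2 : ‖(-(32 / 3) * I : ℂ)‖ = 32 / 3 := by simp
    rw [hb, norm_smul, h2]
    linarith
  have key : ∀ (x y : E n) (τ : ℂ), ‖x‖ < d / 64 → ‖y‖ ≤ d / 3 → ‖τ‖ < 1 → ‖x + τ • y‖ < d := by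
    intro x y τ hx hy hτ
    have h := norm_add_le x (τ • y)
    rw [norm_smul] at h
    have h2 : ‖τ‖ * ‖y‖ ≤ 1 * (d / 3) := mul_le_mul hτ.le hy (norm_nonneg _) zero_le_one
    linarith
  set L : ℂ → E n × E n := fun τ => (a + τ • b, star a + τ • star b) with hL
  have hLm : ∀ τ ∈ ball (0 : ℂ) 1, L τ ∈ ball (dg c) d := by
    intro τ hτ
    rw [mem_ball_zero_iff] at hτ
    have e : L τ - dg c = ((a - c) + τ • b, star (a - c) + τ • star b) := by
      simp only [hL, dg, Prod.mk_sub_mk, star_sub]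
      refine Prod.ext ?_ ?_ <;> simp only <;> abel
    rw [mem_ball_iff_norm, e, Prod.norm_def, max_lt_iff]
    exact ⟨key _ _ _ ha' hb' hτ, key _ _ _ (by rwa [norm_star]) (by rwa [norm_star]) hτ⟩
  have hLd : Differentiable ℂ L := by
    rw [hL]; fun_prop
  have h := st_TC ℂ (fun τ => G (L τ)) m M (hG.comp hLd.differentiableOn hLm) hm hmM
    (fun τ hτ => hM _ (hLm τ hτ)) (fun x hx => by
      have e : L x = dg (a + (x : ℂ) • b) := by
        simp [hL, dg]
      have hx' : ‖(x : ℂ)‖ < 1 := by simpa using hx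
      show ‖G (L x)‖ ≤ m
      rw [e]
      refine hd _ ?_
      have e2 : a + (x : ℂ) • b - c = (a - c) + (x : ℂ) • b := by abel
      rw [mem_ball_iff_norm, e2]
      exact key _ _ _ ha' hb' hx')
  have e : L (3 / 64 * I) = (z, u) := by
    have c1 : (3 / 64 * I : ℂ) * (-(32 / 3) * I) = 2⁻¹ := by
      linear_combination (-(1 / 2) : ℂ) * I_mul_I
    have c2 : (3 / 64 * I : ℂ) * star (-(32 / 3) * I) = -2⁻¹ := by
      have : star (-(32 / 3) * I : ℂ) = (32 / 3) * I := by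
        simp [Complex.ext_iff]
      rw [this]
      linear_combination ((1 / 2) : ℂ) * I_mul_I
    have c3 : star (2⁻¹ : ℂ) = 2⁻¹ := by simp
    simp only [hL, ha, hb, star_smul, smul_smul, c1, c2, c3, star_add, star_sub, star_star]
    refine Prod.ext ?_ ?_ <;> simp only <;> module
  simpa only [e] using h

end WID

open WID in
theorem st_WID : St_WID := by
  intro n k F ξ c s d B hs hd hB hF hM hg
  have hB0 : 0 < B := by linarith
  have hsub : ball (dg c) (d / 64) ⊆ ball (dg c) d := ball_subset_ball (by linarith)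
  have hdp : ∀ (l : ℕ) (η : E k), DifferentiableOn ℂ (fun p => co F ξ l η p) (ball (dg c) d) :=
    fun l η p hp => ((co_diff hs isOpen_ball hF l (q := (η, p)) hp).comp p
      (by fun_prop : DifferentiableAt ℂ (fun p : E n × E n => (η, p)) p)).differentiableWithinAt
  have hbig : ∀ (l : ℕ) (η : E k), ‖η‖ < 3 * s / 2 → ∀ p ∈ ball (dg c) d,
      ‖co F ξ l η p‖ ≤ B * (3 / 2) ^ l := fun l η hη p hp =>
    slice (t := 3 / 2) (by norm_num) (sl_diff hF hp) (fun ζ hζ => hM (ζ, p) ⟨hζ, hp⟩)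
      (by linarith) l
  have hsm : ∀ (l : ℕ) (η : E k), ‖η‖ < 3 * s / 2 → ∀ p ∈ ball (dg c) (d / 64),
      ‖co F ξ l η p‖ ≤ B * (9 / 10) ^ l := by
    intro l η hη p hp
    rcases Nat.eq_zero_or_pos l with rfl | hl
    · simpa using hbig 0 η hη p (hsub hp)
    refine (thin (hdp l η) (m := (3 / 4) ^ l) (by positivity) ?_ (hbig l η hη) ?_ hp).trans
      (num hB l)
    · calc ((3 / 4 : ℝ)) ^ l ≤ (3 / 2) ^ l := pow_le_pow_left₀ (by norm_num) (by norm_num) l
        _ ≤ B * (3 / 2) ^ l := le_mul_of_one_le_left (by positivity) hB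
    · intro z hz
      have h1 : ContinuousAt (fun w => ‖co F ξ l η (dg w)‖) z :=
        (((hdp l η).continuousOn.continuousAt (isOpen_ball.mem_nhds (dg_mem hz))).comp
          cont_dg.continuousAt).norm
      refine le_of_tendsto_of_frequently h1 ((hg z hz).mono fun w hw => ?_)
      obtain ⟨g, κ, h2, h3, h4⟩ := hw
      exact co_good h2 h3 h4 hη hl
  have hgeo : HasSum (fun l : ℕ => B * (9 / 10 : ℝ) ^ l) (10 * B) := by
    have h := (hasSum_geometric_of_lt_one (r := 9 / 10) (by norm_num) (by norm_num)).mul_left B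
    have e : B * (1 - 9 / 10 : ℝ)⁻¹ = 10 * B := by ring
    rwa [e] at h
  have hb : ∀ q ∈ ball ξ (3 * s / 2) ×ˢ ball (dg c) (d / 64), ∀ l,
      ‖co F ξ l (q.1 - ξ) q.2‖ ≤ B * (9 / 10) ^ l := fun q hq l =>
    hsm l _ (mem_ball_iff_norm.1 hq.1) _ hq.2
  refine ⟨fun q => ∑' l, co F ξ l (q.1 - ξ) q.2, ?_, fun q hq => ?_, fun q hq => ?_⟩
  · refine (Pool.Agent.Lib.SV.H85.differentiableOn_of_tendsto (l := atTop)
      (f := fun N q => ∑ l ∈ Finset.range N, co F ξ l (q.1 - ξ) q.2)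
      (isOpen_ball.prod isOpen_ball) (Eventually.of_forall fun N => ?_) (fun q hq => ?_)
      (fun q hq => ?_)).1
    · refine DifferentiableOn.fun_sum fun l _ q hq => ?_
      exact ((co_diff hs isOpen_ball hF l (q := (q.1 - ξ, q.2)) (hsub hq.2)).comp q
        (by fun_prop : DifferentiableAt ℂ (fun q : E k × (E n × E n) => (q.1 - ξ, q.2)) q)
        ).differentiableWithinAt
    · refine ⟨10 * B, _, (isOpen_ball.prod isOpen_ball).mem_nhds hq,
        Eventually.of_forall fun N y hy => ?_⟩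
      exact (norm_sum_le_of_le _ fun l _ => hb y hy l).trans
        (sum_le_hasSum _ (fun l _ => by positivity) hgeo)
    · exact (Summable.of_norm_bounded hgeo.summable (hb q hq)).hasSum.tendsto_sum_nat
  · exact (tsum_of_norm_bounded hgeo (hb q hq)).trans (by linarith)
  · exact (co_sum hF hq.1 (hsub hq.2)).tsum_eq

end Pool.Agent.Lib.RAD
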