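import Pool.Agent.Lib.RAD.Blue
import Pool.Agent.Lib.RA.K_At
import Pool.Agent.Lib.RA.B_TV

/-! Project ra1, step D: the centre of the tube is a limit of values of submersive germs. -/

open scoped Classical Topology ContDiff ComplexOrder Matrix
open Set MeasureTheory Complex Metric Filter

set_option linter.unusedVariables false

noncomputable section

namespace Pool.Agent.Lib.RAD

open Pool.Agent.Lib.SV (E)
open Pool.Agent.Lib.HS32 Pool.Agent.Lib.RA

namespace ZER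

variable {n r : ℕ} {M : Mf n} {G : M.Fam (Mat n)}

theorem top (hC : St_CH2) (hG : M.Met G) {H : M.X → E r} {x : M.X} (hH : HolAt M H x) :
    0 ≤ tD M r G (pb M H 1) x ∧ (0 < tD M r G (pb M H 1) x ↔ Subm M H x) := by
  have e : M.ev (pb M H 1) x =
      (jr (H ∘ (M.ch x).symm) (M.ch x x))ᴴ * jr (H ∘ (M.ch x).symm) (M.ch x x) := by
    show _ * 1 * _ = _
    rw [Matrix.mul_one]
  have h1 : (M.ev (pb M H 1) x).rank = (jr (H ∘ (M.ch x).symm) (M.ch x x)).rank := by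
    rw [e, Matrix.rank_conjTranspose_mul_self]
  have h2 := RA28.top (j := r) (hG.ev_pos x) (B := M.ev (pb M H 1) x)
    (e ▸ Matrix.posSemidef_conjTranspose_mul_self _) (h1 ▸ Matrix.rank_le_height _)
  have h3 := (hC n r _ _ (KA.at_ch hH)).2.2.1
  refine ⟨h2.nonneg, h2.pos.trans ?_⟩
  rw [h1, ← h3]
  exact ⟨KA.subm_of hH (Mf.ch_mem x) (Mf.mem_ch x), fun h => KA.at_ch h⟩

theorem subm_tr {k j : ℕ} {H H' : M.X → E (k + j)} {x : M.X} (h : Tr H H' x) (s : Subm M H' x) :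
    Subm M H x := by
  obtain ⟨a, ha⟩ := h
  intro e he hx
  have h1 : H' ∘ e.symm =ᶠ[𝓝 (e x)] fun w => (H ∘ e.symm) w + I • io j a :=
    KA.eq_chart (f := H') (g := fun y => H y + I • io j a) ha hx
  have h2 : Function.Surjective (fderiv ℂ (H' ∘ e.symm) (e x)) := s e he hx
  rwa [h1.fderiv_eq, fderiv_add_const] at h2

theorem int_neg [M.Cpt] (hG : M.Met G) {g : M.X → ℝ} (hi : Integrable g (M.mu G))
    (h0 : ∀ x, g x ≤ 0) {x : M.X} (hc : ContinuousAt g x) (hx : g x < 0) :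
    ∫ x, g x ∂M.mu G < 0 := by
  have := (mMU n M G hG).2.2.1
  have h1 : 0 < ∫ x, -g x ∂M.mu G := by
    rw [integral_pos_iff_support_of_nonneg (fun y => neg_nonneg.2 (h0 y)) hi.neg]
    refine Measure.measure_pos_of_mem_nhds (x := x) _ ?_
    filter_upwards [hc.eventually_lt continuousAt_const hx] with y hy
    exact (neg_pos.2 hy).ne'
  rw [integral_neg] at h1
  linarith

end ZER

theorem st_ZER (h1 : St_ZR1) (h2 : St_ZR2) (hT : St_TOP) (hC : St_CH2) : St_ZER := by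
  intro n k j m N M _ G Q K' O H χ s H₁ x₁ hG hA hQ hS hs ε hε
  by_contra hn
  push Not at hn
  have hp0 : pj (H₁ x₁) ≠ 0 := fun h => by
    have := hn H₁ x₁ hQ hS
    rw [h, norm_zero] at this
    exact this.not_gt hε
  obtain ⟨ψ, p1, p2, p3, p4, p5⟩ := h2 k j (pj (H₁ x₁)) s ε (TVB.pj_pj _) hp0 hs hε
  obtain ⟨q1, q2⟩ := h1 n k j m N M G Q _ K' O H χ ψ (pj (H₁ x₁)) hG hA p1 p2 p3
  have hO : ∀ i x, χ i x ≠ 0 → x ∈ O i := fun i x hx => hA.supp i (subset_tsupport _ hx)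
  have hle : ∀ i x,
      χ i x * (fderiv ℝ ψ (H i x) (pj (H₁ x₁)) * tD M (k + j) G (pb M (H i) 1) x) ≤ 0 := by
    intro i x
    by_cases h0 : χ i x = 0
    · rw [h0, zero_mul]
    obtain ⟨a1, a2, -⟩ := hA.q i x (hO i x h0)
    obtain ⟨b1, b2⟩ := ZER.top hC hG.toMet a2
    refine mul_nonpos_of_nonneg_of_nonpos (hA.nn i x) ?_
    rcases b1.eq_or_lt with b3 | b3
    · rw [← b3, mul_zero]
    · exact mul_nonpos_of_nonpos_of_nonneg (p4 _ (hn _ x a1 (b2.1 b3))) b1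
  have h3 := (hA.all H₁ x₁ hQ hs.le).self_of_nhds
  obtain ⟨i, hi, hχ⟩ := Finset.exists_ne_zero_of_sum_ne_zero (h3.trans_ne one_ne_zero)
  obtain ⟨hx, htr⟩ := (Finset.mem_filter.1 hi).2
  obtain ⟨-, a2, -⟩ := hA.q i x₁ hx
  have b3 := (ZER.top hC hG.toMet a2).2.2 (ZER.subm_tr htr hS)
  have b4 : pj (H i x₁) = pj (H₁ x₁) := by
    obtain ⟨a, ha⟩ := htr
    rw [ha.self_of_nhds, TVB.pj_tr]
  obtain ⟨t1, t2, -⟩ := hT n (k + j) (k + j) M G (O i) hG (hA.op i)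
  obtain ⟨t3, t4⟩ := t2 (H i) 1 (fun x hx => (hA.q i x hx).2.1) Matrix.PosSemidef.one
  have t5 := ((t1 _ t3 fun x hx e he hx' => ⟨(t4 x hx e he hx').1.1, (t4 x hx e he hx').2.1⟩).2.2
    x₁ hx).1
  have c1 : ContinuousAt (fun x => fderiv ℝ ψ (H i x) (pj (H₁ x₁))) x₁ :=
    (((p1.continuous_fderiv (by simp)).continuousAt.comp a2.cont).clm_apply continuousAt_const)
  have c2 := ZER.int_neg hG.toMet (q1 i) (hle i)
    ((hA.sm i).continuous.continuousAt.mul (c1.mul (KA.smAt_cont t5)))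
    (mul_neg_of_pos_of_neg ((hA.nn i x₁).lt_of_ne' hχ) (mul_neg_of_neg_of_pos (p5 _ b4) b3))
  have c3 := Finset.sum_lt_sum (s := Finset.univ) (g := fun _ : Fin m => (0 : ℝ))
    (fun i _ => integral_nonpos (μ := M.mu G) (hle i)) ⟨i, Finset.mem_univ i, c2⟩
  rw [q2, Finset.sum_const_zero] at c3
  exact c3.false

end Pool.Agent.Lib.RAD
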