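import Pool.Agent.Lib.RAD.Blue
import Pool.Agent.Lib.RA.B_TV

/-! Project ra1, step D, row ZR2: a test function on the tube. -/

open scoped Classical Topology ContDiff
open Set Complex Metric Filter

noncomputable section

namespace Pool.Agent.Lib.RAD

open Pool.Agent.Lib.SV (E)
open Pool.Agent.Lib.RA

namespace ZR2

theorem exists_gam {d : ℝ} (hd : 0 < d) : ∃ γ : ℝ → ℝ, ContDiff ℝ ∞ γ ∧
    (∀ x, γ x ≠ 0 → |x| ≤ 1 + d) ∧ (∀ x, d < |x| → deriv γ x ≤ 0) ∧ deriv γ 1 < 0 := by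
  have h1 : ∀ x, HasDerivAt (fun x => expNegInvGlue (1 + d - x))
      (-((1 + d - x)⁻¹ ^ 2 * expNegInvGlue (1 + d - x))) x := fun x => by
    have := expNegInvGlue.hasDerivAt_polynomial_eval_inv_mul 1 (1 + d - x)
    simp only [Polynomial.eval_one, one_mul, Polynomial.derivative_one, sub_zero, mul_one,
      Polynomial.eval_pow, Polynomial.eval_X] at this
    exact this.comp_const_sub (1 + d) x
  have h2 : ∀ x, 0 < x → deriv (fun x => Real.smoothTransition ((x + d) / d) *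
      expNegInvGlue (1 + d - x)) x = -((1 + d - x)⁻¹ ^ 2 * expNegInvGlue (1 + d - x)) := by
    intro x hx
    rw [← (h1 x).deriv]
    refine EventuallyEq.deriv_eq ((lt_mem_nhds hx).mono fun y hy => ?_)
    simp only [Real.smoothTransition.one_of_one_le ((one_le_div hd).2 (by linarith : d ≤ y + d)),
      one_mul]
  refine ⟨fun x => Real.smoothTransition ((x + d) / d) * expNegInvGlue (1 + d - x),
    (Real.smoothTransition.contDiff.comp (by fun_prop)).mul
      (expNegInvGlue.contDiff.comp (by fun_prop)), fun x hx => ?_, fun x hx => ?_, ?_⟩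
  · obtain ⟨a, b⟩ := mul_ne_zero_iff.1 hx
    rw [Ne, Real.smoothTransition.zero_iff_nonpos, not_le, div_pos_iff_of_pos_right hd] at a
    rw [Ne, expNegInvGlue.zero_iff_nonpos, not_le] at b
    exact abs_le.2 ⟨by linarith, by linarith⟩
  · rcases lt_abs.1 hx with h | h
    · rw [h2 x (hd.trans h), neg_nonpos]
      exact mul_nonneg (sq_nonneg _) (expNegInvGlue.nonneg _)
    · refine le_of_eq ((EventuallyEq.deriv_eq (f := fun _ => (0 : ℝ))
        ((gt_mem_nhds (show x < -d by linarith)).mono fun y hy => ?_)).trans (deriv_const _ _))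
      simp only [Real.smoothTransition.zero_of_nonpos
        (div_nonpos_of_nonpos_of_nonneg (by linarith : y + d ≤ 0) hd.le), zero_mul]
  · rw [h2 1 one_pos, neg_lt_zero, add_sub_cancel_left]
    exact mul_pos (by positivity) (expNegInvGlue.pos_of_pos hd)

end ZR2

theorem st_ZR2 : St_ZR2 := by
  intro k j p s ε hp h0 hs hε
  have hn : 0 < ‖p‖ := norm_pos_iff.2 h0
  obtain ⟨η, η0, η1, η2⟩ : ∃ η > 0, 2 * η < ε ∧ ‖p‖ + 2 * η ≤ s :=
    ⟨min (ε / 3) ((s - ‖p‖) / 2), lt_min (by positivity) (by linarith),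
      by linarith [min_le_left (ε / 3) ((s - ‖p‖) / 2)],
      by linarith [min_le_right (ε / 3) ((s - ‖p‖) / 2)]⟩
  obtain ⟨γ, g1, g2, g3, g4⟩ := ZR2.exists_gam (div_pos η0 hn)
  obtain ⟨l, -, hl⟩ := exists_dual_vector ℝ p hn.ne'
  obtain ⟨A, hA⟩ : ∃ A : E (k + j) →L[ℝ] ℝ, ∀ t, A t = ‖p‖⁻¹ * l (pj t) :=
    ⟨‖p‖⁻¹ • l.comp (TVB.pjL k j), fun _ => rfl⟩
  obtain ⟨P, hP⟩ : ∃ P : E (k + j) →L[ℝ] E (k + j), ∀ t, P t = pj t - A t • p :=
    ⟨TVB.pjL k j - A.smulRight p, fun _ => rfl⟩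
  have a1 : ∀ t, pj t = p → A t = 1 := fun t ht => by
    rw [hA, ht, hl]
    exact inv_mul_cancel₀ hn.ne'
  have p0 : ∀ t, pj t = p → P t = 0 := fun t ht => by rw [hP, a1 t ht, ht, one_smul, sub_self]
  let b : ContDiffBump (0 : E (k + j)) := ⟨η / 2, η, by positivity, by linarith⟩
  have hψ : ContDiff ℝ ∞ fun t => b (P t) * γ (A t) :=
    (b.contDiff.comp P.contDiff).mul (g1.comp A.contDiff)
  have hd : ∀ t, fderiv ℝ (fun t => b (P t) * γ (A t)) t p = b (P t) * deriv γ (A t) := fun t => by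
    have e1 := (((b.contDiff (n := 1)).differentiable one_ne_zero (P t)).hasFDerivAt.comp t
      P.hasFDerivAt).mul (((g1.differentiable (by simp) (A t)).hasDerivAt.comp_hasFDerivAt t
        A.hasFDerivAt))
    rw [show (fun t => b (P t) * γ (A t)) = (b ∘ P) * (γ ∘ A) from rfl, e1.fderiv]
    simp [p0 p hp, a1 p hp]
  have hb : ∀ t, b (P t) ≠ 0 → ‖pj t‖ ≤ η + |A t| * ‖p‖ := fun t h => by
    have h1 : ‖P t‖ < η := by
      by_contra h'
      exact h (b.zero_of_le_dist (by simpa using h'))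
    have h2 := norm_add_le (P t) (A t • p)
    rw [norm_smul, hP, sub_add_cancel, ← hP, Real.norm_eq_abs] at h2
    linarith
  refine ⟨_, hψ, fun t a => by simp only [hP, hA, TVB.pj_tr], fun t h => ?_, fun t h => ?_,
    fun t h => ?_⟩
  · obtain ⟨h1, h2⟩ := mul_ne_zero_iff.1 h
    have h3 := mul_le_mul_of_nonneg_right (g2 _ h2) hn.le
    rw [add_mul, div_mul_cancel₀ _ hn.ne'] at h3
    linarith [hb t h1]
  · rw [hd]
    by_cases h1 : b (P t) = 0
    · rw [h1, zero_mul]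
    · refine mul_nonpos_of_nonneg_of_nonpos b.nonneg (g3 _ ((div_lt_iff₀ hn).2 ?_))
      linarith [hb t h1]
  · rw [hd, p0 t h, a1 t h, b.one_of_mem_closedBall (mem_closedBall_self b.rIn_pos.le), one_mul]
    exact g4

end Pool.Agent.Lib.RAD
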