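import Pool.Agent.Lib.RAD.Blue
import Pool.Agent.Lib.RAD.Kit
import Pool.Agent.Lib.RA.B_WAD
import Pool.Agent.Lib.RA.B_TV

/-! Project ra1, step D: admissible germs propagate. -/

open scoped Classical Topology ContDiff ComplexOrder Matrix
open Set MeasureTheory Complex Metric Filter

noncomputable section

namespace Pool.Agent.Lib.RAD

open Pool.Agent.Lib.SV (E)
open Pool.Agent.Lib.HS32 Pool.Agent.Lib.RA

namespace PRD

variable {n k j : ℕ} {M : Mf n}

theorem iso_congr {r : ℕ} {η η' : M.Fam (Mat n)} (h : M.All fun e z => η e z = η' e z)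
    {ψ : E r → ℝ} {H : M.X → E r} {x : M.X} (i : Iso M η ψ H x) : Iso M η' ψ H x :=
  ⟨i.1, i.2.mono fun y hy e he hx => (hy e he hx).trans (KA.at_of_all h y e he hx)⟩

theorem ev_prod {V : Type} [TopologicalSpace V] {e : M.Ch} {z : E n} (hz : z ∈ e.target) (a : V)
    {p : V × M.X → Prop} :
    (∀ᶠ w in 𝓝 (a, e.symm z), p w) ↔ ∀ᶠ w : V × E n in 𝓝 (a, z), p (w.1, e.symm w.2) := by
  refine ⟨fun h => (continuousAt_fst.prodMk ((e.continuousAt_symm hz).comp_of_eq
    continuousAt_snd rfl)).eventually h, fun h => ?_⟩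
  have c : ContinuousAt (fun w : V × M.X => (w.1, e w.2)) (a, e.symm z) := continuousAt_fst.prodMk
    ((e.continuousAt (e.map_target hz)).comp_of_eq continuousAt_snd rfl)
  rw [← e.right_inv hz] at h
  filter_upwards [c.eventually h, continuousAt_snd.eventually
    (e.open_source.eventually_mem (e.map_target hz))] with w h1 h2
  rwa [e.left_inv h2] at h1

theorem sh_zero (t : E (k + j)) : sh t 0 = t :=
  TVB.ext2 (fun i => by simp [sh]) fun l => by simp [sh]

theorem an_sh (t : E (k + j)) (a : Fin k → ℝ) :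
    AnalyticAt ℝ (fun w : E (k + j) × (Fin k → ℝ) => sh w.1 w.2) (t, a) :=
  analyticAt_fst.add (((TVB.ioL k j).analyticAt _).comp analyticAt_snd)

end PRD

open PRD in
theorem st_PRD : St_PRD := by
  intro n k j M φ ρ Φ δ c ξ hw ha hT hJ
  have T5 := (st_TV k j Φ δ c hT).2.2.2.2.1
  have a1 : M.All fun e z => AnalyticAt ℝ (ρ ξ ∘ e.symm) z := KA.all_of_at fun x e he hx =>
    (hJ x e he hx).comp_of_eq (analyticAt_const.prod analyticAt_id) rfl
  have a2 : M.All fun e z => AnalyticAt ℝ (pw M φ ρ ξ e) z := fun e he z hz =>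
    (ha e he z hz).add (a1 e he z hz)
  have h0 := ((mHES n M).2.2.2.2.2.1 (ρ ξ) fun e he z hz => (a1 e he z hz).contDiffAt).1
  obtain ⟨w1, -, w2⟩ := (mHES n M).2.2.2.2.1 1 0 φ _ 1 hw h0
  rw [add_zero] at w1
  have e1 : M.All fun e z => M.hw (pw M φ ρ ξ) e z = (M.hw φ + M.hs (ρ ξ)) e z :=
    fun e he z hz => (w2 e he z hz).1
  have e2 : M.All fun e z => (M.hw φ + M.hs (ρ ξ)) e z = M.hw (pw M φ ρ ξ) e z :=
    fun e he z hz => (e1 e he z hz).symm
  refine ⟨w1, a2, fun H x h => ⟨iso_congr e2 h.iso, h.val, ?_⟩, fun H H' x h t => ?_,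
    fun e he a R hs H hH hv z hz h z' hz' => ⟨iso_congr e1 (BWAD.iso_ball w1 he hs
      (fun w hw' => a2 e he w (hs hw')) hH (fun w hw' => (T5 _ (hv w hw')).1) hz
      (iso_congr e2 h.iso) hz'), hv z' hz', ?_⟩⟩
  · filter_upwards [(continuous_const.prodMk continuous_id).continuousAt.eventually
      h.fam.eventually_nhds, BWAD.ev_val h.iso.1 h.val] with y h1 h2 i
    have h3 : (fun a => ρ (ξ + a) y) =ᶠ[𝓝 0] fun a => ph0 Φ (sh (H y) a) + (ρ ξ y - ph0 Φ (H y)) :=
      ((continuous_id.prodMk continuous_const).continuousAt.eventually h1).mono fun a h => by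
        simp only [id] at h ⊢; linarith
    have h4 := (T5 _ h2).2.2.2.2.2 0 (Pi.single i 1) (by rwa [sh_zero])
    rw [sh_zero, dotProduct_single, mul_one] at h4
    rw [← h4, ← fderiv_add_const (ρ ξ y - ph0 Φ (H y)), ← h3.fderiv_eq,
      fderiv_comp_add_left (f := fun a => ρ a y), add_zero, pm]
  · obtain ⟨t1, t2⟩ := BWAD.iso_tr st_TV hT h.iso t
    refine ⟨t1, by rw [t2.self_of_nhds]; exact h.val, ?_⟩
    filter_upwards [h.fam, continuousAt_snd.eventually (show ∀ᶠ y in 𝓝 ((0 : Fin k → ℝ), x).2, _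
      from t2)] with w h1 h2
    simp only [h1, ph0, sh, TVB.pj_add, h2]
  · have q := DK.prp (K := {0} ×ˢ ball a R) (A := fun w : (Fin k → ℝ) × E n =>
      ρ (ξ + w.1) (e.symm w.2) - ρ ξ (e.symm w.2) -
        (ph0 Φ (sh (H (e.symm w.2)) w.1) - ph0 Φ (H (e.symm w.2))))
      (isPreconnected_singleton.prod (convex_ball a R).isPreconnected) ?_ (p := (0, z)) ⟨rfl, hz⟩
      (((ev_prod (hs hz) _).1 h.fam).mono fun w hw => sub_eq_zero.2 hw) (q := (0, z')) ⟨rfl, hz'⟩
    · exact (ev_prod (hs hz') _).2 (q.mono fun w hw => sub_eq_zero.1 hw)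
    rintro ⟨_, w⟩ ⟨rfl, hw'⟩
    have b1 : AnalyticAt ℝ (fun p : (Fin k → ℝ) × E n => H (e.symm p.2)) (0, w) :=
      (KA.an_of_hol (KA.holN_of_on isOpen_ball hH hw')).comp_of_eq analyticAt_snd rfl
    have b2 := (T5 _ (hv w hw')).1
    exact (((KA.at_tgt he (hs hw') (hJ _)).comp_of_eq ((analyticAt_const.add analyticAt_fst).prod
      analyticAt_snd) (by simp)).sub ((a1 e he w (hs hw')).comp_of_eq analyticAt_snd rfl)).sub
      ((b2.comp_of_eq ((an_sh _ _).comp_of_eq (b1.prod analyticAt_fst) rfl) (sh_zero _)).sub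
        (b2.comp_of_eq b1 rfl))

end Pool.Agent.Lib.RAD
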