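import Pool.Agent.Lib.RA.Blue0

/-! Project ra1, step D: the statements. -/

open scoped Classical Topology ContDiff ComplexOrder Matrix
open Set MeasureTheory Complex Metric Filter

set_option linter.unusedVariables false

noncomputable section

namespace Pool.Agent.Lib.RAD

open Pool.Agent.Lib.SV (E)
open Pool.Agent.Lib.HS32 Pool.Agent.Lib.RA

section defs

variable {n k j : ℕ}

/-- A germ whose derivatives in the parameters are derivatives along the fields `N i / δ`. -/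
structure Seed (δ : E n → ℂ) (N : Fin k → E n → E n) (m : Fin k → E n × E n → ℂ)
    (Ψ : E k × (E n × E n) → ℂ) (z : E n) : Prop where
  hol : ∀ᶠ p in 𝓝 ((0 : E k), dg z), DifferentiableAt ℂ Ψ p
  ini : ∀ᶠ w in 𝓝 (dg z), ∀ i, fderiv ℂ Ψ (0, w) (Pi.single i 1, 0) = m i w
  pde : ∀ᶠ p in 𝓝 ((0 : E k), dg z), ∀ i,
    δ p.2.1 * fderiv ℂ Ψ p (Pi.single i 1, 0) = fderiv ℂ Ψ p (0, (N i p.2.1, 0))

/-- The same derivatives are derivatives along holomorphic fields in the last variable. -/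
def Dual (Ψ : E k × (E n × E n) → ℂ) (z : E n) : Prop :=
  ∃ Y : Fin k → E n → E n, (∀ i, HolN (Y i) (star z)) ∧ ∀ᶠ p in 𝓝 ((0 : E k), dg z), ∀ i,
    fderiv ℂ Ψ p (Pi.single i 1, 0) = fderiv ℂ Ψ p (0, (0, Y i p.2.2))

/-- Up to a constant, the germ of `f` at `ξ` extends to the complex ball of radius `2 s` with the
bound one. -/
def Sta (f : (Fin k → ℝ) → ℝ) (ξ : Fin k → ℝ) (s : ℝ) : Prop :=
  ∃ (g : E k → ℂ) (κ : ℂ), DifferentiableOn ℂ g (ball (cx ξ) (2 * s)) ∧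
    (∀ ζ ∈ ball (cx ξ) (2 * s), ‖g ζ‖ ≤ 1) ∧ ∀ᶠ ζ in 𝓝 ξ, (f ζ : ℂ) = g (cx ζ) + κ

variable (M : Mf n)

/-- The weight at the parameter `ξ`. -/
def pw (φ : M.Fam ℝ) (ρ : (Fin k → ℝ) → M.X → ℝ) (ξ : Fin k → ℝ) : M.Fam ℝ :=
  fun e z => φ e z + ρ ξ (e.symm z)

/-- The moment maps at the parameter `ξ`. -/
def pm (ρ : (Fin k → ℝ) → M.X → ℝ) (ξ : Fin k → ℝ) (i : Fin k) (x : M.X) : ℝ :=
  fderiv ℝ (fun a => ρ a x) ξ (Pi.single i 1)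

/-- The flow up to the radius `R`. -/
structure Stg (j : ℕ) (φ : M.Fam ℝ) (μ : Fin k → M.X → ℝ) (V : M.Cov)
    (ρ : (Fin k → ℝ) → M.X → ℝ) (R s d B : ℝ) : Prop extends Ini M j φ μ ρ where
  r0 : 0 < R
  s0 : 0 < s
  d0 : 0 < d
  b1 : 1 ≤ B
  pz : ∀ ξ ∈ ball (0 : Fin k → ℝ) R, Pzd M V ρ ξ s d B
  st : ∀ x, Sta (fun a => ρ a x) 0 s

/-- The two properties that are transported from the parameter zero. -/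
def Trf (φ : M.Fam ℝ) (ρ : (Fin k → ℝ) → M.X → ℝ) (ξ : Fin k → ℝ) (s : ℝ) : Prop :=
  ∀ x, ∃ᶠ y in 𝓝 x, Sta (fun a => ρ a y) ξ s ∧ JP M φ ρ ξ y

end defs

/-! ### Coordinates -/

/-- The Lie series. -/
def St_SER : Prop := ∀ (n k : ℕ) (c : E n) (R R' : ℝ) (δ : E n → ℂ) (N : Fin k → E n → E n)
  (m : Fin k → E n × E n → ℂ) (Ψ₀ : E k × (E n × E n) → ℂ) (z₀ : E n), R' < R →
  DifferentiableOn ℂ δ (ball c R) → (∀ i, DifferentiableOn ℂ (N i) (ball c R)) →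
  (∀ i, DifferentiableOn ℂ (m i) (ball (dg c) R)) → z₀ ∈ ball c R → δ z₀ ≠ 0 →
  Seed δ N m Ψ₀ z₀ → Dual Ψ₀ z₀ →
  ∃ s > 0, ∃ F : E k × (E n × E n) → ℂ, DifferentiableOn ℂ F (ball 0 s ×ˢ ball (dg c) R') ∧
    (∀ p ∈ ball (0 : E k) s ×ˢ ball (dg c) R', ‖F p‖ ≤ 1) ∧ (∀ w ∈ ball (dg c) R', F (0, w) = 0) ∧
    ∀ Ψ, ∀ z ∈ ball c R', Seed δ N m Ψ z → ∀ᶠ p in 𝓝 ((0 : E k), dg z), F p = Ψ p - Ψ (0, p.2)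

/-- The germ attached to a map into the tube. -/
def St_SEED : Prop := ∀ (n k j : ℕ) (Φ : E (k + j) × E (k + j) → ℂ) (δ c : ℝ)
  (H : E n → E (k + j)) (z : E n) (d : E n → ℂ) (N : Fin k → E n → E n)
  (m : Fin k → E n × E n → ℂ), Tv k j Φ δ c → HolN H z → ‖H z‖ < 2 * δ →
  (∀ i, ∀ᶠ w in 𝓝 (dg z), DifferentiableAt ℂ (m i) w) →
  (∀ᶠ w in 𝓝 z, ∀ i, m i (dg w) = mu0 Φ (H w) i ∧
    fderiv ℂ H w (N i w) = d w • Pi.single (Fin.castAdd j i) 1) →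
  ∃ Ψ, Seed d N m Ψ z ∧
    (∀ᶠ p : (Fin k → ℝ) × E n in 𝓝 (0, z), Ψ (cx p.1, dg p.2) = ph0 Φ (sh (H p.2) p.1)) ∧
    (HolN d z → (∀ i, HolN (N i) z) → d z ≠ 0 → Dual Ψ z)

/-- The radius in the parameter grows, the width shrinks. -/
def St_WID : Prop := ∀ (n k : ℕ) (F : E k × (E n × E n) → ℂ) (ξ : E k) (c : E n) (s d B : ℝ),
  0 < s → 0 < d → 1 ≤ B → DifferentiableOn ℂ F (ball ξ s ×ˢ ball (dg c) d) →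
  (∀ p ∈ ball ξ s ×ˢ ball (dg c) d, ‖F p‖ ≤ B) →
  (∀ z ∈ ball c d, ∃ᶠ w in 𝓝 z, ∃ (g : E k → ℂ) (κ : ℂ), DifferentiableOn ℂ g (ball ξ (2 * s)) ∧
    (∀ ζ ∈ ball ξ (2 * s), ‖g ζ‖ ≤ 1) ∧ ∀ᶠ ζ in 𝓝 ξ, F (ζ, dg w) = g ζ + κ) →
  ∃ F' : E k × (E n × E n) → ℂ,
    DifferentiableOn ℂ F' (ball ξ (3 * s / 2) ×ˢ ball (dg c) (d / 64)) ∧
    (∀ p ∈ ball ξ (3 * s / 2) ×ˢ ball (dg c) (d / 64), ‖F' p‖ ≤ 11 * B) ∧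
    EqOn F' F (ball ξ s ×ˢ ball (dg c) (d / 64))

/-- Gluing of the extensions in the parameter. -/
def St_GLU : Prop := ∀ (k : ℕ) (f : (Fin k → ℝ) → ℝ) (R s t : ℝ), 0 < s → s ≤ t →
  (∀ ξ ∈ ball (0 : Fin k → ℝ) R, ∃ g : E k → ℂ, DifferentiableOn ℂ g (ball (cx ξ) t) ∧
    ∀ ζ ∈ ball ξ s, g (cx ζ) = f ζ) →
  ∃ f' : (Fin k → ℝ) → ℝ, ∀ ξ ∈ ball (0 : Fin k → ℝ) R, ∀ g : E k → ℂ,
    DifferentiableOn ℂ g (ball (cx ξ) t) → (∀ ζ ∈ ball ξ s, g (cx ζ) = f ζ) →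
    ∀ ζ ∈ ball ξ t, g (cx ζ) = f' ζ

/-- A test function on the tube. -/
def St_ZR2 : Prop := ∀ (k j : ℕ) (p : E (k + j)) (s ε : ℝ), pj p = p → p ≠ 0 → ‖p‖ < s → 0 < ε →
  ∃ ψ : E (k + j) → ℝ, ContDiff ℝ ∞ ψ ∧ (∀ t a, ψ (t + I • io j a) = ψ t) ∧
    (∀ t, ψ t ≠ 0 → ‖pj t‖ ≤ s) ∧ (∀ t, ε ≤ ‖pj t‖ → fderiv ℝ ψ t p ≤ 0) ∧
    ∀ t, pj t = p → fderiv ℝ ψ t p < 0

/-! ### The start -/

/-- A global Killing potential on a polar ball. -/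
def St_KPB : Prop := ∀ (n r : ℕ) (M : Mf n) (G : M.Fam (Mat n)) (φ : M.Fam ℝ) (ν : M.X → ℝ)
  (e : M.Ch) (c : E n) (R : ℝ) (Φ : E n × E n → ℂ), Su M G φ r → HF M φ r →
  (∀ x, KPAt M φ r ν x) → e ∈ M.C → 0 < R → ball c R ⊆ e.target → Plz (φ e) Φ c R →
  ∃ m, Kpe Φ m c R ∧ Plz (ν ∘ e.symm) m c R

/-- In a box the fields are coordinate fields. -/
def St_FLD : Prop := ∀ (n k j : ℕ) (M : Mf n) (φ : M.Fam ℝ) (μ : Fin k → M.X → ℝ) (x₀ : M.X)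
  (Φ : E (k + j) × E (k + j) → ℂ) (δ c : ℝ) (O : Set M.X) (H : M.X → E (k + j))
  (σ : E (k + j) → M.X) (e : M.Ch) (a : E n) (R : ℝ) (F m : E n × E n → ℂ) (d : E n → ℂ)
  (Ξ : E n → E n) (i : Fin k), Pot M φ (k + j) → Box M φ μ x₀ Φ δ c O H σ → e ∈ M.C →
  ball a R ⊆ e.target → Plz (φ e) F a R → Plz (μ i ∘ e.symm) m a R → Fld F m a R d Ξ →
  ∀ z ∈ ball a R, e.symm z ∈ O →
    fderiv ℂ (H ∘ e.symm) z (Ξ z) = d z • Pi.single (Fin.castAdd j i) 1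

/-- The series on one polar ball. -/
def St_LOC : Prop := ∀ (n k j : ℕ) (M : Mf n) (G : M.Fam (Mat n)) (φ : M.Fam ℝ)
  (μ : Fin k → M.X → ℝ) (e : M.Ch) (a : E n) (R R' : ℝ) (F₀ : E n × E n → ℂ), Su M G φ (k + j) →
  HF M φ (k + j) → Kf M φ (k + j) μ → Dense (Xg M φ (k + j) μ) → AllBox M j φ μ → e ∈ M.C →
  0 < R' → R' < R → ball a R ⊆ e.target → Plz (φ e) F₀ a R →
  ∃ s > 0, ∃ F : E k × (E n × E n) → ℂ, DifferentiableOn ℂ F (ball 0 s ×ˢ ball (dg a) R') ∧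
    (∀ p ∈ ball (0 : E k) s ×ˢ ball (dg a) R', ‖F p‖ ≤ 1) ∧ (∀ w ∈ ball (dg a) R', F (0, w) = 0) ∧
    ∀ x₀ (Φ : E (k + j) × E (k + j) → ℂ) δ c O H σ, Box M φ μ x₀ Φ δ c O H σ →
      ∀ z ∈ ball a R', e.symm z ∈ O → ∀ᶠ p : (Fin k → ℝ) × E n in 𝓝 (0, z),
        F (cx p.1, dg p.2) =
          (ph0 Φ (sh (H (e.symm p.2)) p.1) - ph0 Φ (H (e.symm p.2)) : ℝ)

/-- The first stage. -/
def St_D1 : Prop := ∀ (n k j : ℕ) (M : Mf n) [M.Cpt] (G : M.Fam (Mat n)) (φ : M.Fam ℝ)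
  (μ : Fin k → M.X → ℝ), Su M G φ (k + j) → HF M φ (k + j) → Kf M φ (k + j) μ →
  Dense (Xg M φ (k + j) μ) → AllBox M j φ μ →
  ∃ V ρ s d, PCov M φ V ∧ Stg M j φ μ V ρ s s d 1

/-! ### Consequences of the polarisation -/

/-- Joint analyticity in all charts. -/
def St_JAP : Prop := ∀ (n k : ℕ) (M : Mf n) (V : M.Cov) (ρ : (Fin k → ℝ) → M.X → ℝ)
  (ξ : Fin k → ℝ) (s d B : ℝ), 0 < s → 0 < d → Pzd M V ρ ξ s d B → ∀ x, JA M ρ ξ x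

/-- Joint plurisubharmonicity is a closed condition and gives convexity. -/
def St_JPC : Prop := ∀ (n k : ℕ) (M : Mf n) (φ : M.Fam ℝ) (ρ : (Fin k → ℝ) → M.X → ℝ),
  (M.All fun e z => AnalyticAt ℝ (φ e) z) →
  (∀ ξ x, JA M ρ ξ x → (∃ᶠ y in 𝓝 x, JP M φ ρ ξ y) → JP M φ ρ ξ x) ∧
  ∀ x, (∀ ξ, JA M ρ ξ x ∧ JP M φ ρ ξ x) → ConvexOn ℝ univ fun ξ => ρ ξ x

/-- Linear growth in the parameter. -/
def St_LIN : Prop := ∀ (n k : ℕ) (M : Mf n) (ρ : (Fin k → ℝ) → M.X → ℝ) (s : ℝ), 0 < s →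
  (∀ x, ρ 0 x = 0) → (∀ ξ x, JA M ρ ξ x) → (∀ ξ x, ∃ᶠ y in 𝓝 x, Sta (fun a => ρ a y) ξ s) →
  ∀ ξ x, |ρ ξ x| ≤ s⁻¹ * ‖ξ‖

/-- The Lipschitz bound in the point. -/
def St_LIP : Prop := ∀ (n k : ℕ) (M : Mf n) (V : M.Cov) (ρ : (Fin k → ℝ) → M.X → ℝ) (s d : ℝ),
  0 < s → 0 < d →
  (∀ N : ℕ, ∀ ξ ∈ ball (0 : Fin k → ℝ) (s + N * (s / 2)), Pzd M V ρ ξ s (d / 64 ^ N) (11 ^ N)) →
  ∃ C : ℝ, 0 < C ∧ ∀ ξ a, ∀ z ∈ closedBall (V.c a) (2 * V.ρ a),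
    ∀ z' ∈ closedBall (V.c a) (2 * V.ρ a),
      |ρ ξ ((V.e a).symm z) - ρ ξ ((V.e a).symm z')| ≤ C * Real.exp (C * ‖ξ‖) * ‖z - z'‖

/-! ### Admissible germs -/

/-- Real translations. -/
def St_SHF : Prop := ∀ (n k j : ℕ) (M : Mf n) (φ : M.Fam ℝ) (ρ : (Fin k → ℝ) → M.X → ℝ)
  (Φ : E (k + j) × E (k + j) → ℂ) (δ c : ℝ) (ξ ζ : Fin k → ℝ) (H : M.X → E (k + j)) (x : M.X),
  Tv k j Φ δ c → (∀ τ ∈ Icc (0 : ℝ) 1, JA M ρ (ξ + τ • ζ) x) → Adm M φ ρ Φ δ ξ H x →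
  ‖pj (sh (H x) ζ)‖ < 2 * δ →
  Adm M φ ρ Φ δ (ξ + ζ) (fun y => sh (H y) ζ) x ∧ (Subm M H x → Subm M (fun y => sh (H y) ζ) x)

/-- Admissible germs form a class that propagates. -/
def St_PRD : Prop := ∀ (n k j : ℕ) (M : Mf n) (φ : M.Fam ℝ) (ρ : (Fin k → ℝ) → M.X → ℝ)
  (Φ : E (k + j) × E (k + j) → ℂ) (δ c : ℝ) (ξ : Fin k → ℝ), M.Wt 1 φ →
  (M.All fun e z => AnalyticAt ℝ (φ e) z) → Tv k j Φ δ c → (∀ x, JA M ρ ξ x) →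
  M.Wt 1 (pw M φ ρ ξ) ∧ (M.All fun e z => AnalyticAt ℝ (pw M φ ρ ξ e) z) ∧
    Prd M (pw M φ ρ ξ) (pm M ρ ξ) Φ δ (Adm M φ ρ Φ δ ξ)

/-- The measure carried by the branches is invariant under translations. -/
def St_ZR1 : Prop := ∀ (n k j m N : ℕ) (M : Mf n) [M.Cpt] (G : M.Fam (Mat n))
  (Q : (M.X → E (k + j)) → M.X → Prop) (K K' : Set (E (k + j))) (O : Fin m → Set M.X)
  (H : Fin m → M.X → E (k + j)) (χ : Fin m → M.X → ℝ) (ψ : E (k + j) → ℝ) (v : E (k + j)),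
  M.Kae G → Atl M Q K K' N O H χ → ContDiff ℝ ∞ ψ → (∀ t a, ψ (t + I • io j a) = ψ t) →
  (∀ t, ψ t ≠ 0 → t ∈ K) →
  (∀ i, Integrable
    (fun x => χ i x * (fderiv ℝ ψ (H i x) v * tD M (k + j) G (pb M (H i) 1) x)) (M.mu G)) ∧
    ∑ i, ∫ x, χ i x * (fderiv ℝ ψ (H i x) v * tD M (k + j) G (pb M (H i) 1) x) ∂M.mu G = 0

/-- The centre of the tube is a limit of values of submersive germs. -/
def St_ZER : Prop := ∀ (n k j m N : ℕ) (M : Mf n) [M.Cpt] (G : M.Fam (Mat n))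
  (Q : (M.X → E (k + j)) → M.X → Prop) (K' : Set (E (k + j))) (O : Fin m → Set M.X)
  (H : Fin m → M.X → E (k + j)) (χ : Fin m → M.X → ℝ) (s : ℝ) (H₁ : M.X → E (k + j)) (x₁ : M.X),
  M.Kae G → Atl M Q {t | ‖pj t‖ ≤ s} K' N O H χ → Q H₁ x₁ → Subm M H₁ x₁ → ‖pj (H₁ x₁)‖ < s →
  ∀ ε > 0, ∃ H₂ x₂, Q H₂ x₂ ∧ Subm M H₂ x₂ ∧ ‖pj (H₂ x₂)‖ < ε

/-- The chain of parameters. -/
def St_CHA : Prop := ∀ (n k j N : ℕ) (M : Mf n) [M.Cpt] (G : M.Fam (Mat n)) (φ : M.Fam ℝ)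
  (μ : Fin k → M.X → ℝ) (ρ : (Fin k → ℝ) → M.X → ℝ) (R : ℝ) (x₀ : M.X)
  (Φ : E (k + j) × E (k + j) → ℂ) (δ c : ℝ) (O : Set M.X) (H : M.X → E (k + j))
  (σ : E (k + j) → M.X), Su M G φ (k + j) → Ini M j φ μ ρ →
  (∀ ξ ∈ ball (0 : Fin k → ℝ) R, ∀ x, JA M ρ ξ x) → Box M φ μ x₀ Φ δ c O H σ → Fin0 Φ δ N →
  ∀ ξ ∈ ball (0 : Fin k → ℝ) R, ∀ ε > 0, ∃ H' y, Adm M φ ρ Φ δ ξ H' y ∧ Subm M H' y ∧
    pj (H' y) = H' y ∧ ‖H' y‖ < ε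

/-- An admissible germ gives joint plurisubharmonicity. -/
def St_JPA : Prop := ∀ (n k j : ℕ) (M : Mf n) (φ : M.Fam ℝ) (ρ : (Fin k → ℝ) → M.X → ℝ)
  (Φ : E (k + j) × E (k + j) → ℂ) (δ c : ℝ) (ξ : Fin k → ℝ) (H : M.X → E (k + j)) (x : M.X),
  (M.All fun e z => AnalyticAt ℝ (φ e) z) → Tv k j Φ δ c → JA M ρ ξ x → Adm M φ ρ Φ δ ξ H x →
  JP M φ ρ ξ x

/-- Comparison of two admissible germs with the same value: the identity. -/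
def St_BT1 : Prop := ∀ (n k j : ℕ) (M : Mf n) (φ : M.Fam ℝ) (ρ : (Fin k → ℝ) → M.X → ℝ)
  (Φ : E (k + j) × E (k + j) → ℂ) (δ : ℝ) (ξ : Fin k → ℝ) (H H' : M.X → E (k + j)) (x y : M.X),
  (∀ τ ∈ Icc (0 : ℝ) 1, JA M ρ (τ • ξ) x ∧ JA M ρ (-(τ • ξ)) y) → Adm M φ ρ Φ δ 0 H x →
  Adm M φ ρ Φ δ (-ξ) H' y → Subm M H' y → H' y = H x →
  ∃ θ : M.X → M.X, θ x = y ∧ ContinuousAt θ x ∧
    (∀ e ∈ M.C, y ∈ e.source → HolAt M (e ∘ θ) x) ∧ (∀ᶠ w in 𝓝 x, H' (θ w) = H w) ∧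
    ∀ᶠ p : (Fin k → ℝ) × M.X in 𝓝 (0, x),
      ρ (ξ + p.1) p.2 - ρ 0 p.2 = ρ p.1 (θ p.2) - ρ (-ξ) (θ p.2)

/-- Comparison of two admissible germs with the same value: plurisubharmonicity. -/
def St_BT2 : Prop := ∀ (n k j : ℕ) (M : Mf n) (φ : M.Fam ℝ) (ρ : (Fin k → ℝ) → M.X → ℝ)
  (Φ : E (k + j) × E (k + j) → ℂ) (δ c : ℝ) (ξ : Fin k → ℝ) (H H' : M.X → E (k + j)) (x y : M.X)
  (θ : M.X → M.X), (M.All fun e z => AnalyticAt ℝ (φ e) z) → Tv k j Φ δ c → JA M ρ 0 x →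
  JA M ρ 0 y → JA M ρ (-ξ) y → Adm M φ ρ Φ δ 0 H x → Adm M φ ρ Φ δ (-ξ) H' y → θ x = y →
  ContinuousAt θ x → (∀ e ∈ M.C, y ∈ e.source → HolAt M (e ∘ θ) x) →
  (∀ᶠ w in 𝓝 x, H' (θ w) = H w) →
  (∀ᶠ p : (Fin k → ℝ) × M.X in 𝓝 (0, x),
    ρ (ξ + p.1) p.2 - ρ 0 p.2 = ρ p.1 (θ p.2) - ρ (-ξ) (θ p.2)) →
  JP M φ ρ 0 y → JP M φ ρ ξ x

/-- The transport. -/
def St_TRF : Prop := ∀ (n k j : ℕ) (M : Mf n) [M.Cpt] (G : M.Fam (Mat n)) (φ : M.Fam ℝ)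
  (μ : Fin k → M.X → ℝ) (V : M.Cov) (ρ : (Fin k → ℝ) → M.X → ℝ) (R s d B : ℝ),
  Su M G φ (k + j) → Dense (Xg M φ (k + j) μ) → AllBox M j φ μ → AllFin M j φ μ →
  Stg M j φ μ V ρ R s d B → ∀ ξ ∈ ball (0 : Fin k → ℝ) R, Trf M φ ρ ξ s

/-- One step. -/
def St_STP : Prop := ∀ (n k j : ℕ) (M : Mf n) (φ : M.Fam ℝ) (μ : Fin k → M.X → ℝ) (V : M.Cov)
  (ρ : (Fin k → ℝ) → M.X → ℝ) (R s d B : ℝ), Stg M j φ μ V ρ R s d B →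
  (∀ ξ ∈ ball (0 : Fin k → ℝ) R, Trf M φ ρ ξ s) →
  ∃ ρ', Stg M j φ μ V ρ' (R + s / 2) s (d / 64) (11 * B) ∧
    ∀ ξ ∈ ball (0 : Fin k → ℝ) (R + s), ρ' ξ = ρ ξ

end Pool.Agent.Lib.RAD
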